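import Pool.Agent.H71.VLF.Two
import Pool.Agent.H69.CD.Vlf
import Pool.Agent.H71.AVG.Cof
import Pool.Agent.H91.LA.Grad
import Pool.Agent.H68.OWN.Js

/-!
# The velocity is dead: from few jets to `VelF`

`cod_two`: two samples with the same record, tube code, velocity code and position digits have near
heights and near velocities over the frame. `own_few`: the own jets of the orders `0` and `1` of the
frame coordinates, over labels of the window, are few bits given these data. `velf_of`: so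
`few given the own jets of the frame` gives `VelF`.
-/

set_option autoImplicit false

namespace Pool.VLF71

open Finset Real MvPolynomial
open Pool.Agent.H49.Ent Pool.Agent.H32.Dense Pool.STK Pool.D2A Pool.D2Con
open Pool.KA Pool.KSAT Pool.PB Pool.GEN Pool.D2R Pool.D2G30 Pool.ISO Pool.CHT Pool.CHX Pool.V1E
open Pool.PB.Trl (rt rt_mem t_rt)
open Pool.LA91 (ojet jet)

theorem ojet_hy {m J : ℕ} (F : Fam m J) (k : Fin m) (g : ℕ)
    (P : MvPolynomial (Option (Fin m)) ℝ) (ω : F.Ω) :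
    ojet F k 0 P ω = hy F k g P ω / 2 ^ g := by
  unfold ojet hy
  rw [Pool.OWN68.jet_zero, map_sub, eval_X]
  field_simp
  rfl

theorem ojet_vy {m J : ℕ} (F : Fam m J) (k : Fin m) (g w : ℕ)
    (P : MvPolynomial (Option (Fin m)) ℝ) (ω : F.Ω) :
    ojet F k 1 P ω = 2 ^ w * vy F k g w P ω / 2 ^ g := by
  classical
  unfold ojet vy
  rw [Pool.LA91.jet_one]
  have e1 : ∑ o, bd F ω o * eval (bt F ω) (pderiv o (X (some k) - P)) =
      bd F ω (some k) - dd P (bt F ω) (bd F ω) := by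
    have e2 : ∀ o, bd F ω o * eval (bt F ω) (pderiv o (X (some k) - P)) =
        (if o = some k then bd F ω o else 0) - eval (bt F ω) (pderiv o P) * bd F ω o := by
      intro o
      rw [map_sub, map_sub, pderiv_X]
      by_cases h : o = some k
      · rw [h, Pi.single_eq_same, map_one, if_pos rfl]
        ring
      · rw [Pi.single_eq_of_ne (fun hh => h hh.symm), map_zero, if_neg h]
        ring
    simp only [e2]
    rw [Finset.sum_sub_distrib, Finset.sum_ite_eq', if_pos (Finset.mem_univ _)]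
    rfl
  rw [e1]
  field_simp

/-- **Two samples with the same data**: the frame. -/
theorem cod_two (D r : ℕ) : ∃ C : ℕ, ∀ {m J : ℕ} {F : Fam m J} {c : ℕ → Fin m}
    {MB q₀ Q x : ℕ} {s : ℕ → ℕ} {qe : Fin r → ℕ} {o gf g2 : ℕ → ℕ} {B : F.Ω → Prop}
    {Gf G2 : PtT F → ℕ → MvPolynomial (Option (Fin m)) ℝ}
    {Hf : LnT F → ℕ → MvPolynomial (Option (Fin m)) ℝ},
    FrD F c r D MB q₀ Q x s qe o gf g2 B Gf G2 Hf → ∀ {V : Type} (v : F.Ω → V) (vL : LnT F → V)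
    (A1 : PtT F → MvPolynomial (Option (Fin m)) ℝ) (R1 : LnT F → MvPolynomial (Option (Fin m)) ℝ)
    (k κ : ℕ), κ ≤ Q + k → κ ≤ q₀ → (∀ i, κ ≤ qe i) → ∀ ω ω', B ω → B ω' →
    kaF F c s r (o 1) Q v Gf A1 ω = kaF F c s r (o 1) Q v Gf A1 ω' →
    ctF F c s r (o 1) q₀ Q qe Hf R1 vL (slam F (o 1) ω) =
      ctF F c s r (o 1) q₀ Q qe Hf R1 vL (slam F (o 1) ω') →
    xd k (slam F (o 1)) (fun L => xL c s r (o 1) Q (frH F r q₀ Hf L) L) ω =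
      xd k (slam F (o 1)) (fun L => xL c s r (o 1) Q (frH F r q₀ Hf L) L) ω' →
    ∀ l < r, |hy F (c l) (s l) (Gf (ptr F J ω) l) ω -
      hy F (c l) (s l) (Gf (ptr F J ω') l) ω'| ≤ 2 ^ (C * (x + 1)) / 2 ^ κ ∧
      |vy F (c l) (s l) (o 1) (Gf (ptr F J ω) l) ω -
      vy F (c l) (s l) (o 1) (Gf (ptr F J ω') l) ω'| ≤ 2 ^ (C * (x + 1)) / 2 ^ κ := by
  obtain ⟨C₃, hC₃, hhl⟩ := hL_near D
  obtain ⟨C₄, hC₄⟩ := pow_unbounded_of_one_lt C₃ (one_lt_two (α := ℝ))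
  refine ⟨C₄ + 3, ?_⟩
  intro m J F c MB q₀ Q x s qe o gf g2 B Gf G2 Hf W V v vL A1 R1 k κ hκ1 hκ2 hκ3 ω ω' hω hω'
    hka hct hxd l hl
  have h1J : o 1 ≤ J := by have := W.oJ; have := W.o2; omega
  obtain ⟨i, hi⟩ : ∃ i : Fin r, i = ⟨l, hl⟩ := ⟨_, rfl⟩
  have hil : (i : ℕ) = l := by rw [hi]
  -- one sample
  obtain ⟨Λ, hΛ⟩ : ∃ Λ : ℝ, Λ = C₃ * (2 ^ s l * (2 ^ x / 2 ^ gf l) / 2 ^ q₀) := ⟨_, rfl⟩
  have hΛ1 : Λ ≤ 2 ^ (C₄ + x + x) := by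
    have h2 : (2 : ℝ) ^ s l / 2 ^ (gf l + q₀) ≤ 2 ^ x := p2_div (W.n0 l hl)
    have e1 : Λ = C₃ * (2 ^ x * (2 ^ s l / 2 ^ (gf l + q₀))) := by
      rw [hΛ, pow_add]
      field_simp
    have e2 : (2 : ℝ) ^ (C₄ + x + x) = 2 ^ C₄ * (2 ^ x * 2 ^ x) := by
      rw [pow_add, pow_add, mul_assoc]
    rw [e1, e2]
    exact mul_le_mul hC₄.le (mul_le_mul_of_nonneg_left h2 (by positivity)) (by positivity)
      (by positivity)
  have hΛ0 : 0 ≤ Λ := by rw [hΛ]; positivity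
  have hone : ∀ ω₀, B ω₀ → ∃ h0 d0 : ℝ,
      h0 = (hL c s r (o 1) (trn r (Gf (ptr F J ω₀))) (slam F (o 1) ω₀) (some i)).eval 0 ∧
      d0 = (Polynomial.derivative (hL c s r (o 1) (trn r (Gf (ptr F J ω₀))) (slam F (o 1) ω₀)
        (some i))).eval 0 ∧
      |vy F (c l) (s l) (o 1) (Gf (ptr F J ω₀) l) ω₀ - d0| ≤ Λ / 2 ^ q₀ ∧
      |hy F (c l) (s l) (Gf (ptr F J ω₀) l) ω₀ - h0 - rt F (o 1) ω₀ * d0| ≤ Λ / 2 ^ q₀ := by
    intro ω₀ hω₀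
    refine ⟨_, _, rfl, rfl, ?_⟩
    have hfr := W.fr hω₀
    obtain ⟨L, hL'⟩ : ∃ L, L = slam F (o 1) ω₀ := ⟨_, rfl⟩
    have hco : co q₀ L = slam F (o 0) ω₀ := by
      have h2 := co_slam F (w := o 0) (a := o 1) (by rw [W.o1]; omega) h1J ω₀
      rw [hL']
      rwa [W.o1, Nat.add_sub_cancel_left, ← W.o1] at h2
    have hfs := hhl (c := c) (s := s) (d := r) (wb := o 0) (q₀ := q₀) (H₀ := Hf) (L := L)
      (M := 2 ^ x / 2 ^ gf l) (i := i) (by rw [hco]; exact W.dH0 _ _) (fun τ hτ => by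
        rw [hco, hil]
        exact W.own0 ω₀ hω₀ l hl τ hτ) (rt F (o 1) ω₀) (rt_mem F (o 1) ω₀)
    rw [← W.o1, hL', hfr, hil, ← hΛ] at hfs
    obtain ⟨-, a2, a3⟩ := hfs
    have e1 : hy F (c l) (s l) (Gf (ptr F J ω₀) l) ω₀ =
        (hL c s r (o 1) (trn r (Gf (ptr F J ω₀))) (slam F (o 1) ω₀) (some i)).eval
          (rt F (o 1) ω₀) := by
      rw [hL_yp h1J]
      show _ = 2 ^ s i * (bt F ω₀ (some (c i)) - eval (bt F ω₀) (trn r (Gf (ptr F J ω₀)) i))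
      rw [hil, trn_eq hl]
      rfl
    have e2 : vy F (c l) (s l) (o 1) (Gf (ptr F J ω₀) l) ω₀ =
        (Polynomial.derivative (hL c s r (o 1) (trn r (Gf (ptr F J ω₀))) (slam F (o 1) ω₀)
          (some i))).eval (rt F (o 1) ω₀) := by
      rw [der_hL h1J, hil, trn_eq hl]
    rw [e1, e2]
    exact ⟨a2, a3⟩
  obtain ⟨h0, d0, e1, e2, a1, a2⟩ := hone ω hω
  obtain ⟨h0', d0', e1', e2', a1', a2'⟩ := hone ω' hω'
  -- the data
  have hT : F.T ω = F.T ω' := congrArg (fun z => z.2.1) hka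
  have hrt : rt F (o 1) ω' = rt F (o 1) ω := by
    unfold Pool.PB.Trl.rt
    rw [hT]
  have hce : eL c s r (o 1) qe (frH F r q₀ Hf (slam F (o 1) ω)) (slam F (o 1) ω) =
      eL c s r (o 1) qe (frH F r q₀ Hf (slam F (o 1) ω')) (slam F (o 1) ω') :=
    congrArg (fun z => z.2.2.1) hct
  have hcc : cL c s r (o 1) Q (frH F r q₀ Hf (slam F (o 1) ω)) (slam F (o 1) ω) 0 =
      cL c s r (o 1) Q (frH F r q₀ Hf (slam F (o 1) ω')) (slam F (o 1) ω') 0 :=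
    congrArg (fun z => z.2.2.2) hct
  rw [W.fr hω, W.fr hω'] at hce hcc
  have f1 : ⌊2 ^ qe i * d0⌋ = ⌊2 ^ qe i * d0'⌋ := by
    rw [e2, e2']
    exact congrFun hce i
  have f2 : ⌊2 ^ Q * h0⌋ = ⌊2 ^ Q * h0'⌋ := by
    rw [e1, e1']
    exact congrFun hcc i
  have f3 : ⌊2 ^ k * Int.fract (2 ^ Q * h0)⌋₊ = ⌊2 ^ k * Int.fract (2 ^ Q * h0')⌋₊ := by
    have h1 := congrFun hxd i
    unfold xd xL at h1
    dsimp only at h1
    rw [W.fr hω, W.fr hω', ← e1, ← e1'] at h1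
    exact h1
  have b1 : |d0 - d0'| ≤ 1 / 2 ^ κ := by
    have h1 := Int.abs_sub_lt_one_of_floor_eq_floor f1
    rw [← mul_sub, abs_mul, abs_of_pos (show (0 : ℝ) < 2 ^ qe i by positivity)] at h1
    have h2 : |d0 - d0'| ≤ 1 / 2 ^ qe i := by
      rw [le_div_iff₀ (by positivity)]
      linarith
    exact h2.trans (one_div_le_one_div_of_le (by positivity)
      (pow_le_pow_right₀ (by norm_num) (hκ3 i)))
  have b2 : |h0 - h0'| ≤ 1 / 2 ^ κ := by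
    have g1 : |2 ^ k * Int.fract (2 ^ Q * h0) - 2 ^ k * Int.fract (2 ^ Q * h0')| ≤ 1 := by
      have c1 := Nat.floor_le (show 0 ≤ 2 ^ k * Int.fract (2 ^ Q * h0) from
        mul_nonneg (by positivity) (Int.fract_nonneg _))
      have c2 := Nat.lt_floor_add_one (2 ^ k * Int.fract (2 ^ Q * h0))
      have c3 := Nat.floor_le (show 0 ≤ 2 ^ k * Int.fract (2 ^ Q * h0') from
        mul_nonneg (by positivity) (Int.fract_nonneg _))
      have c4 := Nat.lt_floor_add_one (2 ^ k * Int.fract (2 ^ Q * h0'))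
      rw [f3] at c1 c2
      rw [abs_le]
      constructor <;> linarith
    have g2 : 2 ^ Q * h0 - 2 ^ Q * h0' = Int.fract (2 ^ Q * h0) - Int.fract (2 ^ Q * h0') := by
      have c1 := Int.floor_add_fract ((2 : ℝ) ^ Q * h0)
      have c2 := Int.floor_add_fract ((2 : ℝ) ^ Q * h0')
      rw [f2] at c1
      linarith
    rw [← mul_sub, ← g2, ← mul_sub, abs_mul, abs_mul,
      abs_of_pos (show (0 : ℝ) < 2 ^ k by positivity),
      abs_of_pos (show (0 : ℝ) < 2 ^ Q by positivity)] at g1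
    have h2 : |h0 - h0'| ≤ 1 / 2 ^ (Q + k) := by
      rw [le_div_iff₀ (by positivity), pow_add]
      linarith
    exact h2.trans (one_div_le_one_div_of_le (by positivity)
      (pow_le_pow_right₀ (by norm_num) hκ1))
  have b3 : Λ / 2 ^ q₀ ≤ 2 ^ (C₄ + x + x) / 2 ^ κ :=
    div_le_div₀ (by positivity) hΛ1 (by positivity) (pow_le_pow_right₀ (by norm_num) hκ2)
  have hu := rt_mem F (o 1) ω
  rw [hrt] at a2'
  obtain ⟨ι, hι⟩ : ∃ ι : ℝ, ι = 1 / 2 ^ κ := ⟨_, rfl⟩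
  have hι0 : 0 < ι := by rw [hι]; positivity
  have hY : 2 + 2 * (2 : ℝ) ^ (C₄ + x + x) ≤ 2 ^ ((C₄ + 3) * (x + 1)) := by
    have h1 : (1 : ℝ) ≤ 2 ^ (C₄ + x + x) := one_le_pow₀ (by norm_num)
    have h2 : (2 : ℝ) ^ (C₄ + x + x + 2) ≤ 2 ^ ((C₄ + 3) * (x + 1)) :=
      pow_le_pow_right₀ (by norm_num) (by nlinarith)
    rw [pow_add _ _ 2] at h2
    linarith
  have e3 : (2 : ℝ) ^ ((C₄ + 3) * (x + 1)) / 2 ^ κ = 2 ^ ((C₄ + 3) * (x + 1)) * ι := by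
    rw [hι]
    ring
  have e4 : (2 : ℝ) ^ (C₄ + x + x) / 2 ^ κ = 2 ^ (C₄ + x + x) * ι := by
    rw [hι]
    ring
  rw [e4] at b3
  rw [← hι] at b1 b2
  rw [e3]
  have hYι := mul_le_mul_of_nonneg_right hY hι0.le
  have b4 : |rt F (o 1) ω * d0 - rt F (o 1) ω * d0'| ≤ ι := by
    rw [← mul_sub, abs_mul, abs_of_nonneg hu.1]
    exact (mul_le_of_le_one_left (abs_nonneg _) hu.2).trans b1
  rw [abs_le] at a1 a2 a1' a2' b1 b2 b4
  constructor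
  · rw [abs_le]
    constructor <;> linarith [a2.1, a2.2, a2'.1, a2'.2, b2.1, b2.2, b4.1, b4.2]
  · rw [abs_le]
    constructor <;> linarith [a1.1, a1.2, a1'.1, a1'.2, b1.1, b1.2]

/-- The own jets of the orders `0`, `1` of the frame coordinates over labels. -/
noncomputable def uV {m J : ℕ} (F : Fam m J) (c : ℕ → Fin m) (r : ℕ)
    (G₁ : PtT F → ℕ → MvPolynomial (Option (Fin m)) ℝ) (σ : ℕ → ℕ → ℝ) (ω : F.Ω) (i j : ℕ) : ℤ :=
  if i < r ∧ j ≤ 1 then ⌊σ i j * ojet F (c i) j (G₁ (ptr F J ω) i) ω⌋ else 0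

/-- **The own jets of the frame are few bits** given the data of the tube. -/
theorem own_few (D r : ℕ) : ∃ C : ℕ, ∀ {m J : ℕ} {F : Fam m J} {c : ℕ → Fin m}
    {MB q₀ Q x : ℕ} {s : ℕ → ℕ} {qe : Fin r → ℕ} {o gf g2 g : ℕ → ℕ} {B : F.Ω → Prop}
    {Gf G2 G₁ : PtT F → ℕ → MvPolynomial (Option (Fin m)) ℝ}
    {Hf H₁ : LnT F → ℕ → MvPolynomial (Option (Fin m)) ℝ},
    FrD F c r D MB q₀ Q x s qe o gf g2 B Gf G2 Hf → LabW F c r D (o 1) x g B Gf G₁ H₁ →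
    (∀ l < r, g l ≤ s l + x) → ∀ {V : Type} (v : F.Ω → V) (vL : LnT F → V)
    (A1 : PtT F → MvPolynomial (Option (Fin m)) ℝ) (R1 : LnT F → MvPolynomial (Option (Fin m)) ℝ)
    (k κ : ℕ), κ ≤ Q + k → κ ≤ q₀ → (∀ i, κ ≤ qe i) → ∀ σ : ℕ → ℕ → ℝ, (∀ i j, 0 ≤ σ i j) →
    (∀ i < r, σ i 0 ≤ 2 ^ (g i + κ)) → (∀ i < r, σ i 1 * 2 ^ o 1 ≤ 2 ^ (g i + κ)) →
    ∀ q : F.Ω → ℝ, IsLaw q → (∀ ω, 0 < q ω → B ω) →
    CH q (uV F c r G₁ σ) (fun ω => ((fun i : Fin r => G₁ (ptr F J ω) i),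
      (kaF F c s r (o 1) Q v Gf A1 ω, (ctF F c s r (o 1) q₀ Q qe Hf R1 vL (slam F (o 1) ω),
        (eL c s r (o 1) qe (frH F r q₀ Hf (slam F (o 1) ω)) (slam F (o 1) ω),
          xd k (slam F (o 1)) (fun L => xL c s r (o 1) Q (frH F r q₀ Hf L) L) ω))))) ≤
      C * (x + 1) := by
  classical
  obtain ⟨C₁, hcod⟩ := cod_two D r
  obtain ⟨C₂, htwo⟩ := two_smp D r
  refine ⟨(2 * r) * (C₁ + C₂ + 3), ?_⟩
  intro m J F c MB q₀ Q x s qe o gf g2 g B Gf G2 G₁ Hf H₁ W W1 hgs V v vL A1 R1 k κ hκ1 hκ2 hκ3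
    σ hσ0 hσ1 hσ2 q hq hqB
  have h0 := hq.nonneg
  obtain ⟨Y, hY⟩ : ∃ Y : F.Ω → (Fin r → MvPolynomial (Option (Fin m)) ℝ) × (KaT m r V ×
      ((KwT m V × (ℕ × ((Fin r → ℤ) × (Fin r → ℤ)))) × ((Fin r → ℤ) × (Fin r → ℕ)))),
    Y = fun ω => ((fun i : Fin r => G₁ (ptr F J ω) i),
      (kaF F c s r (o 1) Q v Gf A1 ω, (ctF F c s r (o 1) q₀ Q qe Hf R1 vL (slam F (o 1) ω),
        (eL c s r (o 1) qe (frH F r q₀ Hf (slam F (o 1) ω)) (slam F (o 1) ω),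
          xd k (slam F (o 1)) (fun L => xL c s r (o 1) Q (frH F r q₀ Hf L) L) ω)))) := ⟨_, rfl⟩
  rw [← hY]
  obtain ⟨E, hE⟩ : ∃ E : ℝ, E = 2 ^ (C₂ * (x + 1)) * (2 ^ (C₁ * (x + 1)) / 2 ^ κ) := ⟨_, rfl⟩
  have hE0 : 0 ≤ E := by rw [hE]; positivity
  have hEκ : E * 2 ^ κ = 2 ^ ((C₁ + C₂) * (x + 1)) := by
    rw [hE, show (C₁ + C₂) * (x + 1) = C₂ * (x + 1) + C₁ * (x + 1) by ring, pow_add]
    field_simp
  have hnear : ∀ ω ω', 0 < q ω → 0 < q ω' → Y ω = Y ω' → ∀ i < r,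
      |hy F (c i) (g i) (G₁ (ptr F J ω) i) ω - hy F (c i) (g i) (G₁ (ptr F J ω') i) ω'| ≤ E ∧
      |vy F (c i) (g i) (o 1) (G₁ (ptr F J ω) i) ω -
        vy F (c i) (g i) (o 1) (G₁ (ptr F J ω') i) ω'| ≤ E := by
    intro ω ω' hω hω' e
    rw [hY] at e
    simp only [Prod.mk.injEq] at e
    obtain ⟨e1, e2, e3, -, e5⟩ := e
    have hBω := hqB ω hω
    have hBω' := hqB ω' hω'
    have k1 := hcod W v vL A1 R1 k κ hκ1 hκ2 hκ3 ω ω' hBω hBω' e2 e3 e5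
    have hT : F.T ω = F.T ω' := congrArg (fun z => z.2.1) e2
    have ht : F.t ω = F.t ω' := by
      show (F.T ω : ℝ) / 2 ^ J = (F.T ω' : ℝ) / 2 ^ J
      rw [hT]
    have hGf : ∀ l < r, Gf (ptr F J ω) l = Gf (ptr F J ω') l := by
      intro l hl
      have h1 : trn r (Gf (ptr F J ω)) = trn r (Gf (ptr F J ω')) :=
        congrArg (fun z => z.1.2.1) e2
      have h2 := congrFun h1 l
      rwa [trn_eq hl, trn_eq hl] at h2
    rw [hE]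
    exact htwo W1 hgs ω ω' hBω hBω' ht hGf (fun l hl => congrFun e1 ⟨l, hl⟩) _ (by positivity)
      (fun l hl => (k1 l hl).1) (fun l hl => (k1 l hl).2)
  have key : ∀ ω ω', 0 < q ω → 0 < q ω' → Y ω = Y ω' → ∀ ij : Fin r × Fin 2,
      |((uV F c r G₁ σ ω ij.1 ij.2 : ℤ) : ℝ) - (uV F c r G₁ σ ω' ij.1 ij.2 : ℤ)| ≤
        2 ^ ((C₁ + C₂) * (x + 1)) + 1 := by
    rintro ω ω' hω hω' e ⟨⟨i, hi⟩, ⟨j, hj⟩⟩
    obtain ⟨n1, n2⟩ := hnear ω ω' hω hω' e i hi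
    show |((uV F c r G₁ σ ω i j : ℤ) : ℝ) - (uV F c r G₁ σ ω' i j : ℤ)| ≤ _
    unfold uV
    rw [if_pos ⟨hi, by omega⟩, if_pos ⟨hi, by omega⟩]
    have hfl : ∀ a b M : ℝ, |a - b| ≤ M → |((⌊a⌋ : ℤ) : ℝ) - (⌊b⌋ : ℤ)| ≤ M + 1 := by
      intro a b M h
      have c1 := Int.floor_le a
      have c2 := Int.lt_floor_add_one a
      have c3 := Int.floor_le b
      have c4 := Int.lt_floor_add_one b
      rw [abs_le] at h ⊢
      constructor <;> linarith [h.1, h.2]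
    refine hfl _ _ _ ?_
    rw [← mul_sub, abs_mul, abs_of_nonneg (hσ0 i j), ← hEκ]
    obtain rfl | rfl : j = 0 ∨ j = 1 := by omega
    · rw [ojet_hy F (c i) (g i), ojet_hy F (c i) (g i), ← sub_div, abs_div,
        abs_of_pos (show (0 : ℝ) < 2 ^ g i by positivity)]
      have h1 := hσ1 i hi
      rw [pow_add] at h1
      calc σ i 0 * (|hy F (c i) (g i) (G₁ (ptr F J ω) i) ω -
            hy F (c i) (g i) (G₁ (ptr F J ω') i) ω'| / 2 ^ g i) ≤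
            2 ^ g i * 2 ^ κ * (E / 2 ^ g i) := by
            refine mul_le_mul h1 (div_le_div_of_nonneg_right n1 (by positivity)) (by positivity)
              (by positivity)
        _ = E * 2 ^ κ := by field_simp
    · rw [ojet_vy F (c i) (g i) (o 1), ojet_vy F (c i) (g i) (o 1), ← sub_div, ← mul_sub,
        abs_div, abs_mul, abs_of_pos (show (0 : ℝ) < 2 ^ g i by positivity),
        abs_of_pos (show (0 : ℝ) < 2 ^ o 1 by positivity)]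
      have h1 := hσ2 i hi
      rw [pow_add] at h1
      calc σ i 1 * (2 ^ o 1 * |vy F (c i) (g i) (o 1) (G₁ (ptr F J ω) i) ω -
            vy F (c i) (g i) (o 1) (G₁ (ptr F J ω') i) ω'| / 2 ^ g i) =
            σ i 1 * 2 ^ o 1 * (|vy F (c i) (g i) (o 1) (G₁ (ptr F J ω) i) ω -
            vy F (c i) (g i) (o 1) (G₁ (ptr F J ω') i) ω'| / 2 ^ g i) := by ring
        _ ≤ 2 ^ g i * 2 ^ κ * (E / 2 ^ g i) := by
            refine mul_le_mul h1 (div_le_div_of_nonneg_right n2 (by positivity)) (by positivity)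
              (by positivity)
        _ = E * 2 ^ κ := by field_simp
  have k2 := Pool.AVG5.CH_near hq (fun ω (ij : Fin r × Fin 2) => uV F c r G₁ σ ω ij.1 ij.2) Y
    (D := 2 ^ ((C₁ + C₂) * (x + 1)) + 1) (by positivity) key
  have k3 : CH q (uV F c r G₁ σ) Y ≤
      CH q (fun ω (ij : Fin r × Fin 2) => uV F c r G₁ σ ω ij.1 ij.2) Y :=
    CH_mono_left h0 fun ω ω' _ _ e => by
      simp only [Prod.mk.injEq] at e
      funext i j
      by_cases hij : i < r ∧ j ≤ 1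
      · exact congrFun e.1 (⟨i, hij.1⟩, ⟨j, by omega⟩)
      · unfold uV
        rw [if_neg hij, if_neg hij]
  refine k3.trans (k2.trans ?_)
  rw [Fintype.card_prod, Fintype.card_fin, Fintype.card_fin]
  have h2 : Real.log (2 * (2 ^ ((C₁ + C₂) * (x + 1)) + 1) + 1) ≤ (C₁ + C₂ + 3) * (x + 1) := by
    have h3 : (2 : ℝ) * (2 ^ ((C₁ + C₂) * (x + 1)) + 1) + 1 ≤ 2 ^ ((C₁ + C₂ + 3) * (x + 1)) := by
      have h4 : (1 : ℝ) ≤ 2 ^ ((C₁ + C₂) * (x + 1)) := one_le_pow₀ (by norm_num)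
      have h5 : (2 : ℝ) ^ ((C₁ + C₂) * (x + 1) + 3) ≤ 2 ^ ((C₁ + C₂ + 3) * (x + 1)) :=
        pow_le_pow_right₀ (by norm_num) (by nlinarith)
      rw [pow_add _ _ 3] at h5
      linarith
    refine (Real.log_le_log (by positivity) h3).trans ?_
    rw [Real.log_pow]
    have h4 := Real.log_two_lt_d9
    push_cast
    have h5 : (0 : ℝ) ≤ (C₁ + C₂ + 3) * (x + 1) := by positivity
    nlinarith
  push_cast
  have hr0 : (0 : ℝ) ≤ r := Nat.cast_nonneg r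
  have h6 := mul_le_mul_of_nonneg_left h2 (show (0 : ℝ) ≤ r * 2 by positivity)
  refine h6.trans (le_of_eq ?_)
  ring

/-- **From `few given the own jets of the frame' to `VelF`.** -/
theorem velf_of (D r : ℕ) : ∃ C : ℕ, ∀ {m J : ℕ} {F : Fam m J} {c : ℕ → Fin m}
    {MB q₀ Q x : ℕ} {s : ℕ → ℕ} {qe : Fin r → ℕ} {o gf g2 g : ℕ → ℕ} {B : F.Ω → Prop}
    {Gf G2 G₁ : PtT F → ℕ → MvPolynomial (Option (Fin m)) ℝ}
    {Hf H₁ : LnT F → ℕ → MvPolynomial (Option (Fin m)) ℝ},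
    FrD F c r D MB q₀ Q x s qe o gf g2 B Gf G2 Hf → LabW F c r D (o 1) x g B Gf G₁ H₁ →
    (∀ l < r, g l ≤ s l + x) → ∀ {V : Type} (v : F.Ω → V) (vL : LnT F → V)
    (A1 : PtT F → MvPolynomial (Option (Fin m)) ℝ) (R1 : LnT F → MvPolynomial (Option (Fin m)) ℝ)
    (k κ : ℕ), κ ≤ Q + k → κ ≤ q₀ → (∀ i, κ ≤ qe i) → ∀ σ : ℕ → ℕ → ℝ, (∀ i j, 0 ≤ σ i j) →
    (∀ i < r, σ i 0 ≤ 2 ^ (g i + κ)) → (∀ i < r, σ i 1 * 2 ^ o 1 ≤ 2 ^ (g i + κ)) →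
    ∀ q : F.Ω → ℝ, IsLaw q → (∀ ω, 0 < q ω → B ω) →
    ∀ {W₁ : Type} (z₁ : F.Ω → W₁) (n : LnT F → Polynomial ℝ) {δ δ₁ δ₂ : ℝ},
    CH q (fun ω => ⌊2 ^ (MB - Q) * (Polynomial.derivative (n (slam F (o 1) ω))).eval
      (rt F (o 1) ω)⌋) (fun ω => (uV F c r G₁ σ ω, (z₁ ω, F.T ω))) ≤ δ₁ →
    CH q (fun ω => (z₁ ω, fun i : Fin r => G₁ (ptr F J ω) i)) (fun ω => (v ω, F.T ω)) ≤ δ₂ →
    δ₁ + δ₂ + C * (x + 1) ≤ δ * Q →
    VelF Q MB k (2 ^ (J - o 1)) δ q (slam F (o 1)) (twF F (o 1))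
      (kaF F c s r (o 1) Q v Gf A1)
      (fun ω => eL c s r (o 1) qe (frH F r q₀ Hf (slam F (o 1) ω)) (slam F (o 1) ω))
      (ctF F c s r (o 1) q₀ Q qe Hf R1 vL)
      (fun L => xL c s r (o 1) Q (frH F r q₀ Hf L) L) n := by
  classical
  obtain ⟨C, hC⟩ := own_few D r
  refine ⟨C, ?_⟩
  intro m J F c MB q₀ Q x s qe o gf g2 g B Gf G2 G₁ Hf H₁ W W1 hgs V v vL A1 R1 k κ hκ1 hκ2 hκ3
    σ hσ0 hσ1 hσ2 q hq hqB W₁ z₁ n δ δ₁ δ₂ hn hz hδ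
  have h0 := hq.nonneg
  have h1 := hC W W1 hgs v vL A1 R1 k κ hκ1 hκ2 hκ3 σ hσ0 hσ1 hσ2 q hq hqB
  obtain ⟨X, hX⟩ : ∃ X : F.Ω → ℤ, X = fun ω => ⌊2 ^ (MB - Q) *
    (Polynomial.derivative (n (slam F (o 1) ω))).eval (rt F (o 1) ω)⌋ := ⟨_, rfl⟩
  rw [← hX] at hn
  unfold VelF
  have e1 : (fun ω => ⌊2 ^ (MB - Q) * (Polynomial.derivative (n (slam F (o 1) ω))).eval
      (uu (2 ^ (J - o 1)) (twF F (o 1)) ω)⌋) = X := by
    rw [hX]
    funext ω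
    have e2 : uu (2 ^ (J - o 1)) (twF F (o 1)) ω = rt F (o 1) ω := by
      unfold uu twF Pool.PB.Trl.rt
      push_cast
      rfl
    rw [e2]
  rw [e1]
  obtain ⟨Y, hY⟩ : ∃ Y : F.Ω → KaT m r V × ((KwT m V × (ℕ × ((Fin r → ℤ) × (Fin r → ℤ)))) ×
      ((Fin r → ℤ) × (Fin r → ℕ))), Y = fun ω => (kaF F c s r (o 1) Q v Gf A1 ω,
      (ctF F c s r (o 1) q₀ Q qe Hf R1 vL (slam F (o 1) ω),
        (eL c s r (o 1) qe (frH F r q₀ Hf (slam F (o 1) ω)) (slam F (o 1) ω),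
          xd k (slam F (o 1)) (fun L => xL c s r (o 1) Q (frH F r q₀ Hf L) L) ω))) := ⟨_, rfl⟩
  obtain ⟨g1, hg1⟩ : ∃ g1 : F.Ω → (Fin r → MvPolynomial (Option (Fin m)) ℝ),
    g1 = fun ω => fun i : Fin r => G₁ (ptr F J ω) i := ⟨_, rfl⟩
  obtain ⟨U, hU⟩ : ∃ U : F.Ω → ℕ → ℕ → ℤ, U = uV F c r G₁ σ := ⟨_, rfl⟩
  replace hn : CH q X (fun ω => (U ω, (z₁ ω, F.T ω))) ≤ δ₁ := by
    rw [hU]
    exact hn
  replace hz : CH q (fun ω => (z₁ ω, g1 ω)) (fun ω => (v ω, F.T ω)) ≤ δ₂ := by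
    rw [hg1]
    exact hz
  replace h1 : CH q U (fun ω => (g1 ω, Y ω)) ≤ C * (x + 1) := by
    rw [hU, hg1, hY]
    exact h1
  show CH q X (fun ω => (kaF F c s r (o 1) Q v Gf A1 ω,
      (ctF F c s r (o 1) q₀ Q qe Hf R1 vL (slam F (o 1) ω),
        (eL c s r (o 1) qe (frH F r q₀ Hf (slam F (o 1) ω)) (slam F (o 1) ω),
          xd k (slam F (o 1)) (fun L => xL c s r (o 1) Q (frH F r q₀ Hf L) L) ω)))) ≤ δ * Q
  rw [← hY]
  have s1 := CH_le_add h0 X (fun ω => ((z₁ ω, g1 ω), U ω)) Y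
  have s2 := CH_chain h0 U (fun ω => (z₁ ω, g1 ω)) Y
  have s3 : CH q (fun ω => ((z₁ ω, g1 ω), U ω)) Y = CH q (fun ω => (U ω, (z₁ ω, g1 ω))) Y :=
    CH_congr h0 (fun ω ω' _ _ e => by
      simp only [Prod.mk.injEq] at e ⊢
      tauto) (fun ω ω' _ _ e => by
      simp only [Prod.mk.injEq] at e ⊢
      tauto) (fun _ _ _ _ e => e) (fun _ _ _ _ e => e)
  have s4 : CH q (fun ω => (z₁ ω, g1 ω)) Y ≤ δ₂ := by
    refine le_trans (CH_mono_cond h0 fun ω ω' _ _ e => ?_) hz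
    rw [hY] at e
    have e2 := (Prod.ext_iff.mp e).1
    have e3 : v ω = v ω' := congrArg (fun z => z.1.1) e2
    have e4 : F.T ω = F.T ω' := congrArg (fun z => z.2.1) e2
    rw [e3, e4]
  have s5 : CH q U (fun ω => ((z₁ ω, g1 ω), Y ω)) ≤ C * (x + 1) := by
    refine le_trans (CH_mono_cond h0 fun ω ω' _ _ e => ?_) h1
    simp only [Prod.mk.injEq] at e ⊢
    exact ⟨e.1.2, e.2⟩
  have s6 : CH q X (fun ω => (((z₁ ω, g1 ω), U ω), Y ω)) ≤ δ₁ := by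
    refine le_trans (CH_mono_cond h0 fun ω ω' _ _ e => ?_) hn
    simp only [Prod.mk.injEq] at e ⊢
    refine ⟨e.1.2, e.1.1.1, ?_⟩
    have e2 := e.2
    rw [hY] at e2
    exact congrArg (fun z => z.1.2.1) e2
  linarith

end Pool.VLF71
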