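import Pool.Agent.H69.NE.Nv
import Pool.Agent.H71.VLF.Vfd

/-!
# The labels of `NvD` as `LabW`
-/

set_option autoImplicit false

namespace Pool.VLF71

open Finset Real MvPolynomial
open Pool.KA Pool.KSAT Pool.PB Pool.GEN Pool.D2R Pool.D2G30 Pool.ISO Pool.CHT Pool.CHX Pool.V1E
open Pool.PB.Trl (rt rt_mem t_rt)

/-- **The labels of the window `o 1`** against the frame of the window `o 0`. -/
theorem labw_nvd {m J : ℕ} {F : Fam m J} {c : ℕ → Fin m} {r D n M ar MB q₀ Q x p e su : ℕ}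
    {s : ℕ → ℕ} {qe : Fin r → ℕ} {o : ℕ → ℕ} {z g gc gT g₀ : ℕ → ℕ → ℕ} {B : F.Ω → Prop}
    {G T : ℕ → PtT F → ℕ → MvPolynomial (Option (Fin m)) ℝ}
    {H TH : ℕ → LnT F → ℕ → MvPolynomial (Option (Fin m)) ℝ}
    {Ht CL : LnT F → MvPolynomial (Option (Fin m)) ℝ}
    {Cp : PtT F → MvPolynomial (Option (Fin m)) ℝ}
    (W : NvD F c r D n M ar MB q₀ Q x p e su s qe o z g gc gT g₀ B G T H TH Ht CL Cp)
    (hz : ∃ q ≤ M, z 0 q = o 1 - o 0) (hg : ∀ l < r, g₀ 1 l ≤ g 0 l + q₀ + x)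
    {D' x' : ℕ} (hD : D ≤ D') (hx : 2 * x + 2 ≤ x') :
    LabW F c r D' (o 1) x' (g₀ 1) B (G 0) (G 1) (H 1) where
  hc := W.hcr
  wJ := by have := W.o2; have := W.o3; have := W.oJ; omega
  dF := fun y l => (W.dG 0 y l).trans hD
  pF := W.pG 0
  dG := fun y l => (W.dG 1 y l).trans hD
  pG := W.pG 1
  dH := fun y l => (W.dH 1 y l).trans hD
  cl := fun ω hω l hl => W.cl1 ω hω l (by omega)
  pos := fun ω hω l hl => W.ch1.pos ω hω l (by omega)
  own := fun ω hω l hl τ hτ => (W.own1 ω hω l (by omega) τ hτ).trans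
    (div_le_div_of_nonneg_right (pow_le_pow_right₀ (by norm_num) (by omega)) (by positivity))
  agr := fun ω hω l hl => by
    obtain ⟨q, hq, hz⟩ := hz
    refine ⟨F.x ω (c l) - eval (bt F ω) (G 0 (ptr F J ω) l), fun b hb => ?_⟩
    have h1 := shf_b W.bal (Nat.zero_le n) (show 1 ≤ n by have := W.n3; omega) hq
      (by have := W.o1; omega) hz W.ch1 hω (show l ≤ r + 1 by omega) hb
    refine h1.trans (p2_le' ?_)
    have h2 := hg l hl
    have h3 := W.o1
    rcases le_total (g 0 l + (o 1 - o 0)) (g₀ 1 l) with h | h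
    · rw [min_eq_left h]
      omega
    · rw [min_eq_right h]
      omega

end Pool.VLF71
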