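import Pool.Agent.H71.VLF.Np

/-!
# `VelF` from the first jet

`few_nj`: the velocity of the target over closed polynomials, from the first jet. `velf_ev`: `VelF`
on one event from the first jet of the target given the own jets of the chain, a closed quantity and
the time.
-/

set_option autoImplicit false

namespace Pool.VLF71

open Finset Real MvPolynomial
open Pool.KA Pool.KSAT Pool.PB Pool.GEN Pool.D2R Pool.D2G30 Pool.ISO Pool.CHT Pool.CHX Pool.V1E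
open Pool.PB.Trl (rt rt_mem t_rt)
open Pool.Agent.H49.Ent Pool.Agent.H32.Dense Pool.STK Pool.K2S
open Pool.LA91 (ojet jet)

/-- **The velocity of the target over the closed polynomials** is few bits, if its first jet over
the polynomials `Gv` is: `few_np` for the first jet in place of the codes. -/
theorem few_nj (D r : ℕ) : ∃ C : ℕ, ∀ {m J : ℕ} {F : Fam m J} {c : ℕ → Fin m}
    {w x : ℕ} {g : ℕ → ℕ} {B : F.Ω → Prop}
    {Gf G₁ : PtT F → ℕ → MvPolynomial (Option (Fin m)) ℝ}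
    {H₁ : LnT F → ℕ → MvPolynomial (Option (Fin m)) ℝ}, LabW F c r D w x g B Gf G₁ H₁ →
    ∀ {MB Q M₁ κ : ℕ} {s : ℕ → ℕ} {k : Fin m} {Gv : F.Ω → MvPolynomial (Option (Fin m)) ℝ}
    {np : LnT F → Polynomial ℝ} {A1 : PtT F → MvPolynomial (Option (Fin m)) ℝ}
    {R1 : LnT F → MvPolynomial (Option (Fin m)) ℝ},
    (∀ ω, B ω → (Polynomial.derivative (np (slam F w ω))).eval (rt F w ω) =
      1 / 2 ^ w * ojet F k 1 (Gv ω) ω) →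
    (∀ y, (A1 y).totalDegree ≤ D) → (∀ y, DepC c r (A1 y)) →
    (∀ ω, B ω → A1 (ptr F J ω) = R1 (slam F w ω)) →
    (∀ ω, B ω → ∃ κ₀ : ℝ, ∀ b, NBx c (G₁ (ptr F J ω)) g w (F.t ω) r b →
      |eval b (A1 (ptr F J ω)) + κ₀| ≤ 2 ^ x / 2 ^ M₁) →
    ∀ {σ₀ : ℝ}, 0 < σ₀ → 2 ^ (s r + (MB - Q)) ≤ 2 ^ x * σ₀ * 2 ^ w →
    ∀ σ : ℕ → ℕ → ℝ, (∀ i < r, 2 ^ (g i + κ) ≤ 2 ^ x * σ i 0) →
    (∀ i < r, 2 ^ (g i + κ) ≤ 2 ^ x * (σ i 1 * 2 ^ w)) → s r + (MB - Q) ≤ M₁ + κ + x →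
    ∀ q : F.Ω → ℝ, IsLaw q → (∀ ω, 0 < q ω → B ω) → ∀ {W₁ : Type} (z₁ : F.Ω → W₁),
    (∀ ω ω', 0 < q ω → 0 < q ω' → z₁ ω = z₁ ω' →
      (∀ l < r, G₁ (ptr F J ω) l = G₁ (ptr F J ω') l) ∧ A1 (ptr F J ω) = A1 (ptr F J ω')) →
    ∀ {δ₁ : ℝ}, CH q (fun ω => ⌊σ₀ * ojet F k 1 (Gv ω) ω⌋)
      (fun ω => (uV F c r G₁ σ ω, (z₁ ω, F.T ω))) ≤ δ₁ →
    CH q (fun ω => ⌊2 ^ (MB - Q) * (Polynomial.derivative (nT F s r w np R1 (slam F w ω))).eval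
      (rt F w ω)⌋) (fun ω => (uV F c r G₁ σ ω, (z₁ ω, F.T ω))) ≤ δ₁ + C * (x + 1) := by
  classical
  obtain ⟨C₁, htwo⟩ := two_dd D r
  refine ⟨C₁ + 6, ?_⟩
  intro m J F c w x g B Gf G₁ H₁ W MB Q M₁ κ s k Gv np A1 R1 hnp hAD hAp hcl hAb
    σ₀ hσ₀ hnum σ hσ0 hσ1 hnum2 q hq hqB W₁ z₁ hz₁ δ₁ hcod
  have h0 := hq.nonneg
  obtain ⟨Y, hY⟩ : ∃ Y : F.Ω → (ℕ → ℕ → ℤ) × (W₁ × ℕ),
    Y = fun ω => (uV F c r G₁ σ ω, (z₁ ω, F.T ω)) := ⟨_, rfl⟩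
  obtain ⟨X, hX⟩ : ∃ X : F.Ω → ℤ, X = fun ω => ⌊2 ^ (MB - Q) *
    (Polynomial.derivative (nT F s r w np R1 (slam F w ω))).eval (rt F w ω)⌋ := ⟨_, rfl⟩
  obtain ⟨Z, hZ⟩ : ∃ Z : F.Ω → ℤ, Z = fun ω => ⌊σ₀ * ojet F k 1 (Gv ω) ω⌋ := ⟨_, rfl⟩
  rw [← hX, ← hY]
  rw [← hY, ← hZ] at hcod
  have hval : ∀ ω, B ω → 2 ^ (MB - Q) *
      (Polynomial.derivative (nT F s r w np R1 (slam F w ω))).eval (rt F w ω) =
      2 ^ (s r + (MB - Q)) * (1 / 2 ^ w) * ojet F k 1 (Gv ω) ω -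
      2 ^ (s r + (MB - Q)) * (1 / 2 ^ w * dd (A1 (ptr F J ω)) (bt F ω) (bd F ω)) := by
    intro ω hω
    unfold nT
    rw [Polynomial.derivative_C_mul, Polynomial.eval_mul, Polynomial.eval_C,
      Polynomial.derivative_sub, Polynomial.eval_sub, hnp ω hω, dd_own W.wJ ω, ← hcl ω hω]
    rw [pow_add]
    ring
  have key : ∀ ω ω', 0 < q ω → 0 < q ω' → (Z ω, Y ω) = (Z ω', Y ω') →
      |((X ω : ℤ) : ℝ) - (X ω' : ℤ)| ≤ 2 ^ ((C₁ + 3) * (x + 1)) + 1 := by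
    intro ω ω' hω hω' e
    rw [hY] at e
    simp only [Prod.mk.injEq] at e
    obtain ⟨eZ, eU, ez, eT⟩ := e
    obtain ⟨eG, eA⟩ := hz₁ ω ω' hω hω' ez
    have hBω := hqB ω hω
    have hBω' := hqB ω' hω'
    have ht : F.t ω = F.t ω' := by
      show (F.T ω : ℝ) / 2 ^ J = (F.T ω' : ℝ) / 2 ^ J
      rw [eT]
    have hfl : ∀ a b M : ℝ, |a - b| ≤ M → |((⌊a⌋ : ℤ) : ℝ) - (⌊b⌋ : ℤ)| ≤ M + 1 := by
      intro a b M h
      have c1 := Int.floor_le a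
      have c2 := Int.lt_floor_add_one a
      have c3 := Int.floor_le b
      have c4 := Int.lt_floor_add_one b
      rw [abs_le] at h ⊢
      constructor <;> linarith [h.1, h.2]
    rw [hX]
    refine hfl _ _ _ ?_
    rw [hval ω hBω, hval ω' hBω']
    -- the chain
    have hfl2 : ∀ (a b σ' : ℝ), 0 < σ' → ⌊σ' * a⌋ = ⌊σ' * b⌋ → |a - b| ≤ 1 / σ' := by
      intro a b σ' hσ' h
      have c1 := Int.floor_le (σ' * a)
      have c2 := Int.lt_floor_add_one (σ' * a)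
      have c3 := Int.floor_le (σ' * b)
      have c4 := Int.lt_floor_add_one (σ' * b)
      rw [h] at c1 c2
      have h5 : |σ' * (a - b)| ≤ 1 := by
        rw [mul_sub, abs_le]
        constructor <;> linarith
      rw [abs_mul, abs_of_pos hσ'] at h5
      rw [le_div_iff₀ hσ']
      linarith
    -- the first jet
    have hj : |ojet F k 1 (Gv ω) ω - ojet F k 1 (Gv ω') ω'| ≤ 1 / σ₀ := by
      rw [hZ] at eZ
      exact hfl2 _ _ _ hσ₀ eZ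
    have hp0 : ∀ i < r, 0 < σ i 0 := fun i hi => by
      have h1 := hσ0 i hi
      have h2 : (0 : ℝ) < 2 ^ x * σ i 0 := lt_of_lt_of_le (by positivity) h1
      exact (mul_pos_iff_of_pos_left (by positivity)).1 h2
    have hp1 : ∀ i < r, 0 < σ i 1 := fun i hi => by
      have h1 := hσ1 i hi
      have h2 : (0 : ℝ) < 2 ^ x * (σ i 1 * 2 ^ w) := lt_of_lt_of_le (by positivity) h1
      have h3 := (mul_pos_iff_of_pos_left (by positivity : (0 : ℝ) < 2 ^ x)).1 h2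
      exact (mul_pos_iff_of_pos_right (by positivity)).1 h3
    have hUu : ∀ i < r, ∀ j ≤ 1, ⌊σ i j * ojet F (c i) j (G₁ (ptr F J ω) i) ω⌋ =
        ⌊σ i j * ojet F (c i) j (G₁ (ptr F J ω') i) ω'⌋ := by
      intro i hi j hj'
      have h1 := congrFun (congrFun eU i) j
      unfold uV at h1
      rwa [if_pos ⟨hi, hj'⟩, if_pos ⟨hi, hj'⟩] at h1
    have hyn : ∀ l < r, |hy F (c l) (g l) (G₁ (ptr F J ω) l) ω -
        hy F (c l) (g l) (G₁ (ptr F J ω') l) ω'| ≤ 2 ^ x / 2 ^ κ := by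
      intro l hl
      have h1 := hfl2 _ _ _ (hp0 l hl) (hUu l hl 0 (by omega))
      rw [ojet_hy F (c l) (g l), ojet_hy F (c l) (g l), ← sub_div, abs_div,
        abs_of_pos (show (0 : ℝ) < 2 ^ g l by positivity), div_le_iff₀ (by positivity)] at h1
      refine h1.trans ?_
      have h2 := hσ0 l hl
      rw [pow_add] at h2
      rw [div_mul_eq_mul_div, one_mul, div_le_div_iff₀ (hp0 l hl) (by positivity)]
      exact h2
    have vyn : ∀ l < r, |vy F (c l) (g l) w (G₁ (ptr F J ω) l) ω -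
        vy F (c l) (g l) w (G₁ (ptr F J ω') l) ω'| ≤ 2 ^ x / 2 ^ κ := by
      intro l hl
      have h1 := hfl2 _ _ _ (hp1 l hl) (hUu l hl 1 le_rfl)
      rw [ojet_vy F (c l) (g l) w, ojet_vy F (c l) (g l) w, ← sub_div, ← mul_sub, abs_div,
        abs_mul, abs_of_pos (show (0 : ℝ) < 2 ^ w by positivity),
        abs_of_pos (show (0 : ℝ) < 2 ^ g l by positivity), div_le_iff₀ (by positivity)] at h1
      have h2 := hσ1 l hl
      rw [pow_add] at h2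
      have h3 : |vy F (c l) (g l) w (G₁ (ptr F J ω) l) ω -
          vy F (c l) (g l) w (G₁ (ptr F J ω') l) ω'| ≤ 2 ^ g l / (σ l 1 * 2 ^ w) := by
        rw [le_div_iff₀ (by have := hp1 l hl; positivity)]
        have h4 := mul_le_mul_of_nonneg_left h1 (hp1 l hl).le
        have h5 : σ l 1 * (1 / σ l 1 * 2 ^ g l) = 2 ^ g l := by
          have := (hp1 l hl).ne'
          field_simp
        rw [h5] at h4
        linarith
      refine h3.trans ?_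
      rw [div_le_div_iff₀ (by have := hp1 l hl; positivity) (by positivity)]
      exact h2
    obtain ⟨κ₀, hκ₀⟩ := hAb ω hBω
    have hdd := htwo W ω ω' hBω hBω' ht eG (A1 (ptr F J ω)) (hAD _) (hAp _)
      (2 ^ x / 2 ^ M₁) κ₀ hκ₀ (2 ^ x / 2 ^ κ) (by positivity) hyn vyn
    rw [← eA]
    have e1 : 2 ^ (s r + (MB - Q)) * (1 / 2 ^ w) * ojet F k 1 (Gv ω) ω -
        2 ^ (s r + (MB - Q)) * (1 / 2 ^ w * dd (A1 (ptr F J ω)) (bt F ω) (bd F ω)) -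
        (2 ^ (s r + (MB - Q)) * (1 / 2 ^ w) * ojet F k 1 (Gv ω') ω' -
        2 ^ (s r + (MB - Q)) * (1 / 2 ^ w * dd (A1 (ptr F J ω)) (bt F ω') (bd F ω'))) =
        2 ^ (s r + (MB - Q)) * (1 / 2 ^ w) * (ojet F k 1 (Gv ω) ω -
          ojet F k 1 (Gv ω') ω') -
        2 ^ (s r + (MB - Q)) * (1 / 2 ^ w * dd (A1 (ptr F J ω)) (bt F ω) (bd F ω) -
          1 / 2 ^ w * dd (A1 (ptr F J ω)) (bt F ω') (bd F ω')) := by ring
    rw [e1]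
    refine (abs_sub _ _).trans ?_
    rw [abs_mul (2 ^ (s r + (MB - Q)) * (1 / 2 ^ w)),
      abs_of_pos (show (0 : ℝ) < 2 ^ (s r + (MB - Q)) * (1 / 2 ^ w) by positivity),
      abs_mul (2 ^ (s r + (MB - Q))), abs_of_pos (show (0 : ℝ) < 2 ^ (s r + (MB - Q)) by
      positivity)]
    have p1 : 2 ^ (s r + (MB - Q)) * (1 / 2 ^ w) * |ojet F k 1 (Gv ω) ω -
        ojet F k 1 (Gv ω') ω'| ≤ 2 ^ x := by
      refine (mul_le_mul_of_nonneg_left hj (by positivity)).trans ?_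
      have e2 : (2 : ℝ) ^ (s r + (MB - Q)) * (1 / 2 ^ w) * (1 / σ₀) =
          2 ^ (s r + (MB - Q)) / (σ₀ * 2 ^ w) := by
        field_simp
      rw [e2, div_le_iff₀ (by positivity)]
      linarith
    have p2 : 2 ^ (s r + (MB - Q)) * |1 / 2 ^ w * dd (A1 (ptr F J ω)) (bt F ω) (bd F ω) -
        1 / 2 ^ w * dd (A1 (ptr F J ω)) (bt F ω') (bd F ω')| ≤
        2 ^ (C₁ * (x + 1)) * 2 ^ (3 * x) := by
      refine (mul_le_mul_of_nonneg_left hdd (by positivity)).trans ?_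
      have h1 : (2 : ℝ) ^ (s r + (MB - Q)) ≤ 2 ^ M₁ * 2 ^ κ * 2 ^ x := by
        rw [← pow_add, ← pow_add]
        exact pow_le_pow_right₀ (by norm_num) hnum2
      calc (2 : ℝ) ^ (s r + (MB - Q)) * (2 ^ (C₁ * (x + 1)) * (2 ^ x / 2 ^ M₁) * (2 ^ x / 2 ^ κ))
          ≤ 2 ^ M₁ * 2 ^ κ * 2 ^ x *
            (2 ^ (C₁ * (x + 1)) * (2 ^ x / 2 ^ M₁) * (2 ^ x / 2 ^ κ)) :=
            mul_le_mul_of_nonneg_right h1 (by positivity)
        _ = 2 ^ (C₁ * (x + 1)) * 2 ^ (3 * x) := by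
            rw [show 3 * x = x + x + x by ring, pow_add, pow_add]
            field_simp
    refine (add_le_add p1 p2).trans ?_
    have h3 : (2 : ℝ) ^ x ≤ 2 ^ ((C₁ + 3) * (x + 1) - 1) :=
      pow_le_pow_right₀ (by norm_num) (by
        have : (C₁ + 3) * (x + 1) = C₁ * (x + 1) + 3 * x + 3 := by ring
        have h4 : 0 ≤ C₁ * (x + 1) := Nat.zero_le _
        omega)
    have h4 : (2 : ℝ) ^ (C₁ * (x + 1)) * 2 ^ (3 * x) ≤ 2 ^ ((C₁ + 3) * (x + 1) - 1) := by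
      rw [← pow_add]
      refine pow_le_pow_right₀ (by norm_num) ?_
      have : (C₁ + 3) * (x + 1) = C₁ * (x + 1) + 3 * x + 3 := by ring
      omega
    have h5 : (2 : ℝ) ^ ((C₁ + 3) * (x + 1)) = 2 * 2 ^ ((C₁ + 3) * (x + 1) - 1) := by
      rw [← pow_succ']
      congr 1
    linarith
  have k1 := Pool.AVG71.CH_pair_int hq X (fun ω => (Z ω, Y ω)) (D := 2 ^ ((C₁ + 3) * (x + 1)) + 1)
    (by positivity) key
  have k2 : Real.log (2 * (2 ^ ((C₁ + 3) * (x + 1)) + 1) + 1) ≤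
      (C₁ + 6) * (x + 1) := by
    have h3 : (2 : ℝ) * (2 ^ ((C₁ + 3) * (x + 1)) + 1) + 1 ≤
        2 ^ ((C₁ + 6) * (x + 1)) := by
      have h4 : (1 : ℝ) ≤ 2 ^ ((C₁ + 3) * (x + 1)) := one_le_pow₀ (by norm_num)
      have h5 : (2 : ℝ) ^ ((C₁ + 3) * (x + 1) + 3) ≤ 2 ^ ((C₁ + 6) * (x + 1)) :=
        pow_le_pow_right₀ (by norm_num) (by nlinarith)
      rw [pow_add _ _ 3] at h5
      linarith
    refine (Real.log_le_log (by positivity) h3).trans ?_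
    rw [Real.log_pow]
    have h4 := Real.log_two_lt_d9
    push_cast
    have h5 : (0 : ℝ) ≤ (C₁ + 6) * (x + 1) := by positivity
    nlinarith
  have k3 := CH_le_add h0 X Z Y
  push_cast
  linarith


/-- **`VelF` from the first jet**, on one event. -/
theorem velf_ev (D r : ℕ) : ∃ C : ℕ, ∀ {m J : ℕ} {F : Fam m J} {c : ℕ → Fin m}
    {MB q₀ Q x : ℕ} {s : ℕ → ℕ} {qe : Fin r → ℕ} {o gf g2 g : ℕ → ℕ} {B : F.Ω → Prop}
    {Gf G2 G₁ : PtT F → ℕ → MvPolynomial (Option (Fin m)) ℝ}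
    {Hf H₁ : LnT F → ℕ → MvPolynomial (Option (Fin m)) ℝ},
    FrD F c r D MB q₀ Q x s qe o gf g2 B Gf G2 Hf → LabW F c r D (o 1) x g B Gf G₁ H₁ →
    (∀ l < r, g l ≤ s l + x) → ∀ {V : Type} (v : F.Ω → V) (vL : LnT F → V)
    (A1 : PtT F → MvPolynomial (Option (Fin m)) ℝ) (R1 : LnT F → MvPolynomial (Option (Fin m)) ℝ)
    (k κ : ℕ), κ ≤ Q + k → κ ≤ q₀ → (∀ i, κ ≤ qe i) → ∀ σ : ℕ → ℕ → ℝ, (∀ i j, 0 ≤ σ i j) →
    (∀ i < r, σ i 0 ≤ 2 ^ (g i + κ)) → (∀ i < r, σ i 1 * 2 ^ o 1 ≤ 2 ^ (g i + κ)) →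
    (∀ i < r, 2 ^ (g i + κ) ≤ 2 ^ x * σ i 0) →
    (∀ i < r, 2 ^ (g i + κ) ≤ 2 ^ x * (σ i 1 * 2 ^ o 1)) →
    ∀ {M₁ : ℕ} {kt : Fin m} {Gv : F.Ω → MvPolynomial (Option (Fin m)) ℝ}
    {np : LnT F → Polynomial ℝ} {A0 : PtT F → MvPolynomial (Option (Fin m)) ℝ}
    {R0 : LnT F → MvPolynomial (Option (Fin m)) ℝ},
    (∀ ω, B ω → (Polynomial.derivative (np (slam F (o 1) ω))).eval (rt F (o 1) ω) =
      1 / 2 ^ o 1 * ojet F kt 1 (Gv ω) ω) →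
    (∀ y, (A0 y).totalDegree ≤ D) → (∀ y, DepC c r (A0 y)) →
    (∀ ω, B ω → A0 (ptr F J ω) = R0 (slam F (o 1) ω)) →
    (∀ ω, B ω → ∃ κ₀ : ℝ, ∀ b, NBx c (G₁ (ptr F J ω)) g (o 1) (F.t ω) r b →
      |eval b (A0 (ptr F J ω)) + κ₀| ≤ 2 ^ x / 2 ^ M₁) →
    ∀ {σ₀ : ℝ}, 0 < σ₀ → 2 ^ (s r + (MB - Q)) ≤ 2 ^ x * σ₀ * 2 ^ o 1 →
    s r + (MB - Q) ≤ M₁ + κ + x →
    ∀ q : F.Ω → ℝ, IsLaw q → (∀ ω, 0 < q ω → B ω) → ∀ {W₁ : Type} (z₁ : F.Ω → W₁)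
    {δ δ₁ δ₂ : ℝ},
    CH q (fun ω => ⌊σ₀ * ojet F kt 1 (Gv ω) ω⌋)
      (fun ω => (uV F c r G₁ σ ω, (z₁ ω, F.T ω))) ≤ δ₁ →
    CH q (fun ω => (z₁ ω, ((fun i : Fin r => G₁ (ptr F J ω) i), A0 (ptr F J ω))))
      (fun ω => (v ω, F.T ω)) ≤ δ₂ →
    δ₁ + δ₂ + C * (x + 1) ≤ δ * Q →
    VelF Q MB k (2 ^ (J - o 1)) δ q (slam F (o 1)) (twF F (o 1))
      (kaF F c s r (o 1) Q v Gf A1)
      (fun ω => eL c s r (o 1) qe (frH F r q₀ Hf (slam F (o 1) ω)) (slam F (o 1) ω))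
      (ctF F c s r (o 1) q₀ Q qe Hf R1 vL)
      (fun L => xL c s r (o 1) Q (frH F r q₀ Hf L) L) (nT F s r (o 1) np R0) := by
  obtain ⟨C₁, hvf⟩ := velf_of D r
  obtain ⟨C₂, hnj⟩ := few_nj D r
  refine ⟨C₁ + C₂, ?_⟩
  intro m J F c MB q₀ Q x s qe o gf g2 g B Gf G2 G₁ Hf H₁ W W1 hgs V v vL A1 R1 k κ hκ1 hκ2 hκ3
    σ hσ0 hσ1 hσ2 hσ3 hσ4 M₁ kt Gv np A0 R0 hnp hAD hAp hcl hAb σ₀ hσ₀ hnum hnum2 q hq hqB W₁ z₁
    δ δ₁ δ₂ hj hz hδ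
  have h0 := hq.nonneg
  obtain ⟨z₂, hz₂⟩ : ∃ z₂ : F.Ω → W₁ × ((Fin r → MvPolynomial (Option (Fin m)) ℝ) ×
      MvPolynomial (Option (Fin m)) ℝ),
    z₂ = fun ω => (z₁ ω, ((fun i : Fin r => G₁ (ptr F J ω) i), A0 (ptr F J ω))) := ⟨_, rfl⟩
  rw [← hz₂] at hz
  have h1 := hnj W1 hnp hAD hAp hcl hAb hσ₀ hnum σ hσ3 hσ4 hnum2 q hq hqB z₂
    (fun ω ω' _ _ e => by
      rw [hz₂] at e
      simp only [Prod.mk.injEq] at e
      exact ⟨fun l hl => congrFun e.2.1 ⟨l, hl⟩, e.2.2⟩) (δ₁ := δ₁) (by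
      refine le_trans (CH_mono_cond h0 fun ω ω' _ _ e => ?_) hj
      rw [hz₂] at e
      simp only [Prod.mk.injEq] at e ⊢
      tauto)
  refine hvf W W1 hgs v vL A1 R1 k κ hκ1 hκ2 hκ3 σ hσ0 hσ1 hσ2 q hq hqB z₂
    (nT F s r (o 1) np R0) (δ₁ := δ₁ + C₂ * (x + 1)) (δ₂ := δ₂) h1 ?_ ?_
  · refine le_trans (CH_mono_left h0 fun ω ω' _ _ e => ?_) hz
    simp only [Prod.mk.injEq] at e ⊢
    refine ⟨e.1, ?_⟩
    have e1 := e.1
    rw [hz₂] at e1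
    simp only [Prod.mk.injEq] at e1
    exact e1.2.1
  · push_cast at hδ ⊢
    linarith

/-- The own path over the own label. -/
theorem nT_nL {m J : ℕ} (F : Fam m J) (c : ℕ → Fin m) (s : ℕ → ℕ) (r w : ℕ)
    (H : LnT F → MvPolynomial (Option (Fin m)) ℝ) (L : LnT F) :
    nT F s r w (fun L => lc w L (some (c r)) - MvPolynomial.aeval (lc w L) (H L)) (fun _ => 0) L =
      nL c s r w (H L) L := by
  unfold nT nL
  rw [map_zero, sub_zero]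

end Pool.VLF71
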