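import Pool.Agent.H71.AJW.Relb
import Pool.Agent.H71.AJW.Ctk
import Pool.Agent.H71.AVG.Cof

/-!
# The codes of the own path, for the labels of a family

`cod_rb`: `path_rb` for the codes of the own path.
-/

set_option autoImplicit false

namespace Pool.AJW

open Finset Real MvPolynomial
open Pool.Agent.H49.Ent Pool.Agent.H32.Dense Pool.STK Pool.KA Pool.KSAT Pool.K2S Pool.PB Pool.GEN
open Pool.S6C Pool.RCD Pool.LA91 Pool.OWN68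
open Pool.GRD (LbP)
open Pool.AVG71 (cod cod_few)

/-- **The codes of the own path of a nonfull coordinate are few bits given the ball**, relative to a
quantity, for the labels of a family. -/
theorem cod_rb (K : ℕ) {h : ℝ} (hh : 0 < h) (hh1 : h ≤ 1) {ε : ℝ}
    (hε : 0 < ε) : ∃ δ : ℝ, 0 < δ ∧ ∃ N₀ : ℕ, 0 < N₀ ∧
    ∀ {m : ℕ} {S : PCl m} {C₀ : ℝ} (_ : TmC S C₀) {I : Finset (Fin m)} {κ : Fin m} {w a p q r : ℝ} (_ : 0 ≤ w) (_ : w ≤ a) (_ : a ≤ 1)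
    (_ : 0 < q) (_ : w + q ≤ 1) (_ : 0 ≤ r)
    {U₀ : Type} {Qu : Qt m U₀}
    {α γ : ∀ J : ℕ, Fam m J → Type} {f : ∀ (J : ℕ) (F : Fam m J), F.Ω → α J F}
    {y : ∀ (J : ℕ) (F : Fam m J), F.Ω → γ J F}
    (_ : ∀ (J : ℕ) (F : Fam m J), ∃ φ : α J F → PtT F, ∀ ω, ptr F J ω = φ (f J F ω))
    (_ : ∀ (J : ℕ) (F : Fam m J), ∃ φ : γ J F → ℕ, ∀ ω, F.T ω = φ (y J F ω))
    {e : ℝ} (_ : 0 < e)
    (Ψ : ∀ (J : ℕ) (F : Fam m J), (F.Ω → Prop) → ∀ V C : Type, (PtT F → V) → (LnT F → V) →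
      (V → MvPolynomial (Option (Fin m)) ℝ) → (LnT F → C) → Prop)
    (_ : ∀ (J : ℕ) (F : Fam m J) (A : F.Ω → Prop) (V C : Type) (z : PtT F → V) (z' : LnT F → V)
      (G : V → MvPolynomial (Option (Fin m)) ℝ) (c : LnT F → C), Ψ J F A V C z z' G c →
      LbOK F I κ K ⌊e * J⌋₊ J ⌊w * J⌋₊ ⌊(r + e) * J⌋₊ ⌊(p - e) * J⌋₊ A z z' G)
    (_ : ∀ (J : ℕ) (F : Fam m J) (A B : F.Ω → Prop) (V C : Type) (z : PtT F → V)
      (z' : LnT F → V) (G : V → MvPolynomial (Option (Fin m)) ℝ) (c : LnT F → C), Sub B A →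
      Ψ J F A V C z z' G c → Ψ J F B V C z z' G c),
    (∀ K₀ : ℕ, Bas S (fun J F A => ∀ (V C : Type) (z : PtT F → V) (z' : LnT F → V)
      (G : V → MvPolynomial (Option (Fin m)) ℝ) (c : LnT F → C), Ψ J F A V C z z' G c →
      ∀ u₀ : F.Ω → U₀, Qu.P K₀ e J F A u₀ →
      ∃ (V₁ : Type) (z₁ : F.Ω → V₁), Cl2 (f J F) (vg a J F) A z₁ ∧
      CH (Pool.Agent.H49.Ent.cond F.p A True) (fun ω => c (vg w J F ω))
        (fun ω => (u₀ ω, (z₁ ω, y J F ω))) ≤ δ * q * J)) →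
    (∀ i ≤ N₀, ∀ x : ℝ, 0 ≤ x → x ≤ q - q * i / N₀ →
      Bas S (fun J F A => ∀ (V C : Type) (z : PtT F → V)
      (z' : LnT F → V) (G : V → MvPolynomial (Option (Fin m)) ℝ) (c : LnT F → C),
      Ψ J F A V C z z' G c →
      CH (Pool.Agent.H49.Ent.cond F.p A True)
        (fun ω => ⌊(2 : ℝ) ^ ((p + (q - q * i / N₀)) * J) *
          ojet F κ 0 (G (z' (slam F ⌊w * J⌋₊ ω))) ω⌋)
        (fun ω => (⌊(2 : ℝ) ^ ((p + x) * J) * ojet F κ 0 (G (z' (slam F ⌊w * J⌋₊ ω))) ω⌋,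
          (z' (slam F ⌊w * J⌋₊ ω), (c (slam F ⌊w * J⌋₊ ω), F.W ω)))) ≤
        ((1 - h) * ((q - q * i / N₀) - x) * Real.log 2 + δ * q) * J)) →
    (∀ K₀ : ℕ, Bas S (fun J F A => ∀ (V C : Type) (z : PtT F → V) (z' : LnT F → V)
      (G : V → MvPolynomial (Option (Fin m)) ℝ) (c : LnT F → C), Ψ J F A V C z z' G c →
      ∀ u₀ : F.Ω → U₀, Qu.P K₀ e J F A u₀ →
      ∃ (V₁ : Type) (z₁ : F.Ω → V₁), Cl2 (f J F) (vg a J F) A z₁ ∧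
      CH (Pool.Agent.H49.Ent.cond F.p A True)
        (fun ω => ⌊(2 : ℝ) ^ ((p + q) * J) * ojet F κ 0 (G (z' (slam F ⌊w * J⌋₊ ω))) ω⌋)
        (fun ω => (u₀ ω, (z₁ ω, y J F ω))) ≤ δ * q * J)) →
    (∀ j < K + 3, j ≠ 0 → F1 S f (vg a) y Qu (qJet m I κ j w p (p - j * w)) e (δ * q)) →
    ∀ K₀ : ℕ, Bas S (fun J F A => ∀ (V C : Type) (z : PtT F → V) (z' : LnT F → V)
        (G : V → MvPolynomial (Option (Fin m)) ℝ) (c : LnT F → C), Ψ J F A V C z z' G c →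
        ∀ u₀ : F.Ω → U₀, Qu.P K₀ e J F A u₀ →
        ∃ (V₁ : Type) (z₁ : F.Ω → V₁), Cl2 (f J F) (vg a J F) A z₁ ∧
          ∀ σ : ℝ, 0 < σ → σ ≤ 2 ^ ((p + q) * J) →
          CH (Pool.Agent.H49.Ent.cond F.p A True)
            (cod F ⌊w * J⌋₊ 0 (K + 1) σ κ z' G)
            (fun ω => (u₀ ω, (z₁ ω, y J F ω))) ≤ ε * q * J) := by
  classical
  obtain ⟨δ, hδ, N₀, hN₀, H⟩ := path_rb K hh hh1 (ε := ε / 2) (by positivity)
  choose M₂ hM₂ using fun j : ℕ => jet_path (K + 2) j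
  refine ⟨δ, hδ, N₀, hN₀, ?_⟩
  intro m S C₀ htm I κ w a p q r hw0 hwa ha hq hwq hr U₀ Qu α γ f y hf hyT e he Ψ hΨl hΨ hc
    hnf hval hnat K₀
  have HP := H htm hw0 hwa ha hq hwq hr hf hyT he Ψ hΨl hΨ hc hnf hval hnat
  -- the constants
  obtain ⟨L, hL⟩ : ∃ L : ℝ, L = ∑ j ∈ range (K + 3), Real.log (2 * M₂ j + 1) := ⟨_, rfl⟩
  have hlM : ∀ j, 0 ≤ Real.log (2 * (M₂ j : ℝ) + 1) := fun j => Real.log_nonneg (by
    have : (0 : ℝ) ≤ M₂ j := Nat.cast_nonneg _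
    linarith)
  have hLj : ∀ j < K + 3, Real.log (2 * (M₂ j : ℝ) + 1) ≤ L := by
    intro j hj
    rw [hL]
    exact Finset.single_le_sum (f := fun j => Real.log (2 * (M₂ j : ℝ) + 1))
      (fun j _ => hlM j) (Finset.mem_range.2 hj)
  obtain ⟨L', hL'⟩ : ∃ L' : ℝ, L' = ((K + 1 + 1 : ℕ) : ℝ) *
    Real.log (2 * (2 ^ (2 * (K + 1) + 1) + 1) + 1) := ⟨_, rfl⟩
  obtain ⟨J₂, hJ₂⟩ := exists_nat_ge (((K + 3 : ℕ) * L + L') / (ε / 2 * q))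
  refine Bas.mono J₂ ((HP K₀).and (Pool.GRW.tmc_bas htm one_pos)) ?_
  rintro J hJ F A ⟨HPA, hA, -⟩ V C z z' G c hcΨ u₀ hu₀
  have hlb := hΨl J F A V C z z' G c hcΨ
  have hJ2 : (J₂ : ℝ) ≤ J := by exact_mod_cast hJ
  have hJ0 : (0 : ℝ) ≤ J := Nat.cast_nonneg J
  have f1 : (K + 3 : ℕ) * L + L' ≤ ε / 2 * q * J := by
    have := hJ₂.trans hJ2
    rw [div_le_iff₀ (by positivity)] at this
    linarith
  obtain ⟨V₁, z₁, hz₁, h1⟩ := HPA V C z z' G c hcΨ u₀ hu₀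
  refine ⟨V₁, z₁, hz₁, fun σ hσ0 hσ => ?_⟩
  obtain ⟨q', hq'⟩ : ∃ q' : F.Ω → ℝ, q' = Pool.Agent.H49.Ent.cond F.p A True := ⟨_, rfl⟩
  have hq'l : IsLaw q' := by
    rw [hq']
    exact isLaw_cond F.isLaw hA
  have h0 := hq'l.nonneg
  rw [← hq'] at h1 ⊢
  have hWJ : ⌊w * J⌋₊ ≤ J := floor_le (hwa.trans ha) J
  have hdeg : ∀ v, (MvPolynomial.X (some κ) - G v).totalDegree ≤ K + 2 := by
    intro v
    refine (MvPolynomial.totalDegree_sub _ _).trans (max_le ?_ ?_)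
    · exact (totalDegree_X _).le.trans (by omega)
    · exact (hlb.deg v).trans (by omega)
  obtain ⟨X, hX⟩ : ∃ X : F.Ω → Fin (K + 3) → ℤ, X = fun ω (j : Fin (K + 3)) =>
    ⌊jr F ⌊w * J⌋₊ (2 ^ ((p + q) * J)) κ z' G j (vg w J F ω)⌋ := ⟨_, rfl⟩
  obtain ⟨Y, hY⟩ : ∃ Y : F.Ω → U₀ × (V₁ × γ J F), Y = fun ω =>
    (u₀ ω, (z₁ ω, y J F ω)) := ⟨_, rfl⟩
  rw [← hY] at h1 ⊢
  have h2 : CH q' X Y ≤ ε / 2 * q * J := by
    refine le_trans (CH_mono_left h0 fun ω ω' _ _ e => ?_) h1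
    have e1 := (Prod.ext_iff.mp e).1
    rw [hX]
    exact (Prod.ext_iff.mp (Prod.ext_iff.mp e1).2).2
  obtain ⟨φT, hφT⟩ := hyT J F
  have hT : ∀ ω ω', Y ω = Y ω' → F.T ω = F.T ω' := by
    intro ω ω' e1
    rw [hY] at e1
    simp only [Prod.mk.injEq] at e1
    rw [hφT, hφT, e1.2.2]
  -- the jets
  obtain ⟨uj, huj⟩ : ∃ uj : F.Ω → Fin (K + 3) → ℤ, uj = fun ω (j : Fin (K + 3)) =>
    ⌊(2 : ℝ) ^ ((p + q - (j : ℕ) * w) * J) *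
      ojet F κ j (G (z' (slam F ⌊w * J⌋₊ ω))) ω⌋ := ⟨_, rfl⟩
  have k1 : CH q' uj (fun ω => (X ω, Y ω)) ≤ (K + 3 : ℕ) * L := by
    refine (CH_pis h0 _ _).trans ?_
    have h2 : ∀ j ∈ (univ : Finset (Fin (K + 3))), CH q' (fun ω => uj ω j)
        (fun ω => (X ω, Y ω)) ≤ L := by
      intro j _
      rw [huj]
      refine (hM₂ j hw0 hWJ (s := p + q) (κ := κ) (z' := z') (G := G)
        hdeg hq'l (fun ω => (X ω, Y ω)) fun ω ω' _ _ e => ⟨hT ω ω' (Prod.ext_iff.mp e).2,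
          fun i hi => ?_⟩).trans (hLj j j.2)
      have e2 := (Prod.ext_iff.mp e).1
      rw [hX] at e2
      exact congrFun e2 ⟨i, by omega⟩
    refine (Finset.sum_le_sum h2).trans (le_of_eq ?_)
    rw [Finset.sum_const, Finset.card_univ, Fintype.card_fin, nsmul_eq_mul]
  -- the codes
  have k2 : CH q' (cod F ⌊w * J⌋₊ 0 (K + 1) σ κ z' G)
      (fun ω => (uj ω, (X ω, Y ω))) ≤ L' := by
    rw [hL']
    refine cod_few (w := w) (N := p + q) hw0 hWJ hσ0 hσ (fun v => ?_) hq'l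
      (fun ω => (uj ω, (X ω, Y ω))) 0 (s := fun j => p + q - (j : ℕ) * w)
      (fun _ _ _ => le_rfl) fun ω ω' _ _ e => ⟨?_, fun j _ hj => ?_⟩
    · exact Nat.succ_le_succ (hlb.deg v)
    · exact hT ω ω' (Prod.ext_iff.mp (Prod.ext_iff.mp e).2).2
    · have e2 := (Prod.ext_iff.mp e).1
      rw [huj] at e2
      exact congrFun e2 ⟨j, by omega⟩
  have s1 := CH_le_add h0 (cod F ⌊w * J⌋₊ 0 (K + 1) σ κ z' G) X Y
  have s2 := CH_le_add h0 (cod F ⌊w * J⌋₊ 0 (K + 1) σ κ z' G) uj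
    (fun ω => (X ω, Y ω))
  have e4 : ε * q * J = ε / 2 * q * J + ε / 2 * q * J := by ring
  rw [e4]
  linarith

end Pool.AJW
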