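import Pool.Agent.H69.NE.Fr

/-!
# Polynomials which are bounded on a cube

`cub_pd`: partial derivatives; `cub_lip`: the value at two points; in the coordinates
(relative time, heights) of a natural box: `npl`.
-/

set_option autoImplicit false

namespace Pool.VLF71

open Finset Real MvPolynomial
open Pool.KA Pool.KSAT Pool.PB Pool.GEN Pool.D2R Pool.D2G30 Pool.ISO Pool.CHT Pool.CHX Pool.V1E
open Pool.PB.Trl (rt rt_mem t_rt)

/-- **The partial derivatives of a polynomial which is bounded on the cube.** -/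
theorem cub_pd (K : ℕ) : ∃ C : ℝ, 1 ≤ C ∧ ∀ {d : ℕ} (P : MvPolynomial (Option (Fin d)) ℝ) (M : ℝ),
    P.totalDegree ≤ K → (∀ y : Option (Fin d) → ℝ, (∀ o, |y o| ≤ 1) → |eval y P| ≤ M) →
    ∀ y : Option (Fin d) → ℝ, (∀ o, |y o| ≤ 1) → ∀ o, |eval y (pderiv o P)| ≤ C * M := by
  classical
  obtain ⟨C, hC, hder⟩ := der_one K
  refine ⟨C, hC, ?_⟩
  intro d P M hd hM y hy o
  obtain ⟨g, hg⟩ : ∃ g : Option (Fin d) → Polynomial ℝ, g = fun o' =>
    if o' = o then Polynomial.X else Polynomial.C (y o') := ⟨_, rfl⟩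
  have hgd : ∀ o', (g o').natDegree ≤ 1 := by
    intro o'
    rw [hg]
    dsimp only
    split_ifs
    · exact Polynomial.natDegree_X_le
    · rw [Polynomial.natDegree_C]
      exact Nat.zero_le _
  have hge : ∀ t : ℝ, (fun o' => (g o').eval t) = fun o' => if o' = o then t else y o' := by
    intro t
    funext o'
    rw [hg]
    dsimp only
    split_ifs
    · rw [Polynomial.eval_X]
    · rw [Polynomial.eval_C]
  have h1 := hder (aeval g P) M (Pool.KBX.natDegree_aeval_le _ _ hgd hd) (fun t ht => by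
    rw [Pool.D2G30.eval_aev, hge]
    refine hM _ fun o' => ?_
    split_ifs
    · rw [abs_of_nonneg ht.1]
      exact ht.2
    · exact hy o') (y o) (hy o)
  have e1 : (Polynomial.derivative (aeval g P)).eval (y o) = eval y (pderiv o P) := by
    rw [der_aev, Polynomial.eval_finsetSum, Finset.sum_eq_single o]
    · rw [Polynomial.eval_mul, Pool.D2G30.eval_aev, hge]
      have e2 : (fun o' => if o' = o then y o else y o') = y := by
        funext o'
        split_ifs with h
        · rw [h]
        · rfl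
      have e3 : Polynomial.derivative (g o) = 1 := by
        rw [hg]
        dsimp only
        rw [if_pos rfl, Polynomial.derivative_X]
      rw [e2, e3, Polynomial.eval_one, mul_one]
    · intro o' _ ho
      have e3 : Polynomial.derivative (g o') = 0 := by
        rw [hg]
        dsimp only
        rw [if_neg ho, Polynomial.derivative_C]
      rw [e3, mul_zero, Polynomial.eval_zero]
    · intro h
      exact absurd (Finset.mem_univ _) h
  rw [← e1]
  exact h1

/-- **The values at two points.** -/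
theorem cub_lip (K : ℕ) : ∃ C : ℝ, 1 ≤ C ∧ ∀ {d : ℕ} (P : MvPolynomial (Option (Fin d)) ℝ) (M : ℝ),
    P.totalDegree ≤ K → (∀ y : Option (Fin d) → ℝ, (∀ o, |y o| ≤ 1) → |eval y P| ≤ M) →
    ∀ y y' : Option (Fin d) → ℝ, (∀ o, |y o| ≤ 1) → (∀ o, |y' o| ≤ 1) → ∀ δ : ℝ,
    (∀ o, |y o - y' o| ≤ δ) → |eval y P - eval y' P| ≤ (d + 1) * (C * M * δ) := by
  classical
  obtain ⟨C, hC, hpd⟩ := cub_pd K
  refine ⟨C, hC, ?_⟩
  intro d P M hd hM y y' hy hy' δ hδ
  have hM0 : 0 ≤ M := (abs_nonneg _).trans (hM y hy)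
  have hδ0 : 0 ≤ δ := (abs_nonneg _).trans (hδ none)
  have h1 := mv_seg P y' (fun o => y o - y' o) (M := (d + 1) * (C * M * δ)) (fun u hu => by
    unfold dd
    refine (Finset.abs_sum_le_sum_abs _ _).trans ?_
    have h2 : ∀ o ∈ (univ : Finset (Option (Fin d))),
        |eval (fun o => y' o + u * (y o - y' o)) (pderiv o P) * (y o - y' o)| ≤ C * M * δ := by
      intro o _
      rw [abs_mul]
      refine mul_le_mul (hpd P M hd hM _ (fun o => ?_) o) (hδ o) (abs_nonneg _) (by positivity)
      have e1 : y' o + u * (y o - y' o) = (1 - u) * y' o + u * y o := by ring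
      rw [e1]
      refine (abs_add_le _ _).trans ?_
      rw [abs_mul, abs_mul, abs_of_nonneg hu.1, abs_of_nonneg (sub_nonneg.2 hu.2)]
      have g1 := mul_le_mul_of_nonneg_left (hy' o) (sub_nonneg.2 hu.2)
      have g2 := mul_le_mul_of_nonneg_left (hy o) hu.1
      linarith
    refine (Finset.sum_le_sum h2).trans (le_of_eq ?_)
    rw [Finset.sum_const, Finset.card_univ, Fintype.card_option, Fintype.card_fin, nsmul_eq_mul]
    push_cast
    ring) 1 ⟨zero_le_one, le_rfl⟩
  have e2 : (fun o => y' o + 1 * (y o - y' o)) = y := by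
    funext o
    ring
  rw [e2] at h1
  exact h1

section npl

variable {m d : ℕ}

/-- The relative time. -/
noncomputable def nsb (w : ℕ) (T : ℝ) : Option (Fin d) → MvPolynomial (Option (Fin d)) ℝ
  | none => C T + C (1 / 2 ^ w) * X none
  | some i => X (some i)

/-- The point with the relative time. -/
noncomputable def nyp (w : ℕ) (T : ℝ) (y : Option (Fin d) → ℝ) : Option (Fin d) → ℝ
  | none => T + 1 / 2 ^ w * y none
  | some i => y (some i)

/-- A polynomial in the coordinates (relative time, heights). -/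
noncomputable def npl (c : ℕ → Fin m) (s : ℕ → ℕ) (G : ℕ → MvPolynomial (Option (Fin m)) ℝ)
    (d w : ℕ) (T : ℝ) (R : MvPolynomial (Option (Fin m)) ℝ) : MvPolynomial (Option (Fin d)) ℝ :=
  bind₁ (nsb w T) (pull c s G d R)

theorem eval_nsb (w : ℕ) (T : ℝ) (y : Option (Fin d) → ℝ) (P : MvPolynomial (Option (Fin d)) ℝ) :
    eval y (bind₁ (nsb w T) P) = eval (nyp w T y) P := by
  rw [eval_bind]
  congr 2
  funext o
  cases o with
  | none =>
    show eval y (C T + C (1 / 2 ^ w) * X none) = T + 1 / 2 ^ w * y none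
    rw [map_add, map_mul, eval_C, eval_C, eval_X]
  | some i =>
    show eval y (X (some i)) = y (some i)
    rw [eval_X]

theorem eval_npl (c : ℕ → Fin m) (s : ℕ → ℕ) (G : ℕ → MvPolynomial (Option (Fin m)) ℝ)
    (w : ℕ) (T : ℝ) (R : MvPolynomial (Option (Fin m)) ℝ) (y : Option (Fin d) → ℝ) :
    eval y (npl c s G d w T R) = eval (hp c s G (nyp w T y)) R := by
  unfold npl
  rw [eval_nsb, eval_pull]

/-- The partial derivatives. -/
theorem pd_npl (c : ℕ → Fin m) (s : ℕ → ℕ) (G : ℕ → MvPolynomial (Option (Fin m)) ℝ)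
    (w : ℕ) (T : ℝ) (R : MvPolynomial (Option (Fin m)) ℝ) (y : Option (Fin d) → ℝ)
    (o : Option (Fin d)) : eval y (pderiv o (npl c s G d w T R)) =
      eval (nyp w T y) (pderiv o (pull c s G d R)) * (match o with
        | none => 1 / 2 ^ w
        | some _ => 1) := by
  classical
  unfold npl
  rw [pd_bind, map_sum, Finset.sum_eq_single o]
  · rw [map_mul, eval_nsb]
    congr 1
    cases o with
    | none =>
      show eval y (pderiv none (C T + C (1 / 2 ^ w) * X none)) = 1 / 2 ^ w
      rw [map_add, pderiv_C, pderiv_C_mul, pderiv_X_self, zero_add, map_mul, eval_C, map_one,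
        mul_one]
    | some i =>
      show eval y (pderiv (some i) (X (some i))) = 1
      rw [pderiv_X_self, map_one]
  · intro o' _ ho
    have e : eval y (pderiv o (nsb (d := d) w T o')) = 0 := by
      cases o' with
      | none =>
        show eval y (pderiv o (C T + C (1 / 2 ^ w) * X none)) = 0
        rw [map_add, pderiv_C, pderiv_C_mul, pderiv_X, Pi.single_eq_of_ne ho]
        simp
      | some i =>
        show eval y (pderiv o (X (some i))) = 0
        rw [pderiv_X, Pi.single_eq_of_ne ho, map_zero]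
    rw [map_mul, e, mul_zero]
  · intro h
    exact absurd (Finset.mem_univ _) h

theorem deg_npl {c : ℕ → Fin m} {s : ℕ → ℕ} {G : ℕ → MvPolynomial (Option (Fin m)) ℝ}
    {w : ℕ} {T : ℝ} {R : MvPolynomial (Option (Fin m)) ℝ} {D : ℕ}
    (hG : ∀ l, (G l).totalDegree ≤ D) (hR : R.totalDegree ≤ D) :
    (npl c s G d w T R).totalDegree ≤ D * (D + 1) ^ d := by
  have h := Pool.D2G30.deg_bind (nsb (d := d) w T) (K := 1) (fun o => by
    cases o with
    | none =>
      show (C T + C (1 / 2 ^ w) * X none : MvPolynomial (Option (Fin d)) ℝ).totalDegree ≤ 1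
      refine (totalDegree_add _ _).trans (max_le ?_ ?_)
      · rw [totalDegree_C]
        exact Nat.zero_le _
      · refine (totalDegree_mul _ _).trans ?_
        rw [totalDegree_C, totalDegree_X]
    | some i =>
      show (X (some i) : MvPolynomial (Option (Fin d)) ℝ).totalDegree ≤ 1
      rw [totalDegree_X]) (pull c s G d R)
  rw [Nat.mul_one] at h
  exact h.trans (deg_pull hG hR)

/-- The points of the cube are in the natural box. -/
theorem npl_box {c : ℕ → Fin m} {g : ℕ → ℕ} {G : ℕ → MvPolynomial (Option (Fin m)) ℝ} {w : ℕ}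
    {T : ℝ} (hc : Set.InjOn c (Set.Iio d)) (hdep : ∀ l, DepC c l (G l))
    {y : Option (Fin d) → ℝ} (hy : ∀ o, |y o| ≤ 1) : NBx c G g w T d (hp c g G (nyp w T y)) := by
  unfold hp
  refine ⟨?_, fun l hl => ?_⟩
  · rw [hpt_none]
    show |T + 1 / 2 ^ w * y none - T| ≤ _
    rw [add_sub_cancel_left, abs_mul, abs_of_pos (show (0 : ℝ) < 1 / 2 ^ w by positivity)]
    exact mul_le_of_le_one_right (by positivity) (hy none)
  · rw [hpt_c _ _ hc hdep hl]
    have e1 : Pool.D2G30.ext (nyp w T y) l = y (some ⟨l, hl⟩) := by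
      unfold Pool.D2G30.ext
      rw [dif_pos hl]
      rfl
    rw [e1, add_sub_cancel_left, abs_div, abs_of_pos (show (0 : ℝ) < 2 ^ g l by positivity)]
    exact div_le_div_of_nonneg_right (hy _) (by positivity)

end npl

end Pool.VLF71
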