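import Pool.Agent.H71.VLF.Vfd
import Pool.Agent.H71.AVG.Cof

/-!
# The velocity of the own path from the codes at an earlier window

`two_dd`: the derivative of a closed polynomial of the chain along the own lines of two samples with
the same charts. `few_np`: the velocity of the target over a closed polynomial of the chain at the
window `w` from the codes of its own path over the labels of an earlier window `w₀`.
-/

set_option autoImplicit false

namespace Pool.VLF71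

open Finset Real MvPolynomial
open Pool.KA Pool.KSAT Pool.PB Pool.GEN Pool.D2R Pool.D2G30 Pool.ISO Pool.CHT Pool.CHX Pool.V1E
open Pool.PB.Trl (rt rt_mem t_rt)
open Pool.Agent.H49.Ent Pool.Agent.H32.Dense Pool.STK Pool.K2S
open Pool.AVG71 (cod)
open Pool.LA91 (ojet jet)

/-- **The derivative of a closed polynomial of the chain along the own lines** of two samples with
the same charts. -/
theorem two_dd (D r : ℕ) : ∃ C : ℕ, ∀ {m J : ℕ} {F : Fam m J} {c : ℕ → Fin m}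
    {w x : ℕ} {g : ℕ → ℕ} {B : F.Ω → Prop}
    {Gf G₁ : PtT F → ℕ → MvPolynomial (Option (Fin m)) ℝ}
    {H₁ : LnT F → ℕ → MvPolynomial (Option (Fin m)) ℝ}, LabW F c r D w x g B Gf G₁ H₁ →
    ∀ ω ω', B ω → B ω' → F.t ω = F.t ω' →
    (∀ l < r, G₁ (ptr F J ω) l = G₁ (ptr F J ω') l) → ∀ R : MvPolynomial (Option (Fin m)) ℝ,
    R.totalDegree ≤ D → DepC c r R → ∀ M κ : ℝ,
    (∀ b, NBx c (G₁ (ptr F J ω)) g w (F.t ω) r b → |eval b R + κ| ≤ M) → ∀ ε : ℝ, 0 ≤ ε →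
    (∀ l < r, |hy F (c l) (g l) (G₁ (ptr F J ω) l) ω -
      hy F (c l) (g l) (G₁ (ptr F J ω') l) ω'| ≤ ε) →
    (∀ l < r, |vy F (c l) (g l) w (G₁ (ptr F J ω) l) ω -
      vy F (c l) (g l) w (G₁ (ptr F J ω') l) ω'| ≤ ε) →
    |1 / 2 ^ w * dd R (bt F ω) (bd F ω) - 1 / 2 ^ w * dd R (bt F ω') (bd F ω')| ≤
      2 ^ (C * (x + 1)) * M * ε := by
  classical
  obtain ⟨C₁, hC₁, hvy⟩ := vy_le D
  obtain ⟨Cp, hCp, hpd⟩ := cub_pd (D * (D + 1) ^ r)
  obtain ⟨Cl, hCl, hlip⟩ := cub_lip (D * (D + 1) ^ r)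
  obtain ⟨n, hn⟩ := pow_unbounded_of_one_lt ((r + 1) * ((r + 1) * (Cl * Cp) * C₁ + Cp))
    (one_lt_two (α := ℝ))
  refine ⟨n + 1, ?_⟩
  intro m J F c w x g B Gf G₁ H₁ W ω ω' hω hω' ht hG₁ R hRD hRd M κ hκ ε hε hh hv'
  have hr0 : (0 : ℝ) ≤ r := Nat.cast_nonneg r
  have hx1 : (1 : ℝ) ≤ 2 ^ x := one_le_pow₀ (by norm_num)
  obtain ⟨P, hP⟩ : ∃ P : ℕ → MvPolynomial (Option (Fin m)) ℝ, P = G₁ (ptr F J ω) := ⟨_, rfl⟩
  obtain ⟨P', hP'⟩ : ∃ P' : ℕ → MvPolynomial (Option (Fin m)) ℝ, P' = G₁ (ptr F J ω') :=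
    ⟨_, rfl⟩
  have hPd : ∀ l, DepC c l (P l) := fun l => by rw [hP]; exact W.pG _ l
  have hPd' : ∀ l, DepC c l (P' l) := fun l => by rw [hP']; exact W.pG _ l
  have hPD : ∀ l, (P l).totalDegree ≤ D := fun l => by rw [hP]; exact W.dG _ l
  have hPe : ∀ l < r, P l = P' l := fun l hl => by rw [hP, hP']; exact hG₁ l hl
  have hRD' : (R + C κ).totalDegree ≤ D := by
    refine (totalDegree_add _ _).trans (max_le hRD ?_)
    rw [totalDegree_C]
    exact Nat.zero_le _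
  have hRd' : DepC c r (R + C κ) := by
    intro b b' h0 h1
    rw [map_add, map_add, eval_C, eval_C, hRd b b' h0 h1]
  have hdd : ∀ ω₀ : F.Ω, dd (R + C κ) (bt F ω₀) (bd F ω₀) = dd R (bt F ω₀) (bd F ω₀) := by
    intro ω₀
    unfold dd
    refine Finset.sum_congr rfl fun o _ => ?_
    rw [map_add, pderiv_C, add_zero]
  obtain ⟨N, hN⟩ : ∃ N : MvPolynomial (Option (Fin r)) ℝ, N = npl c g P r w (F.t ω) (R + C κ) :=
    ⟨_, rfl⟩
  have hND : N.totalDegree ≤ D * (D + 1) ^ r := by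
    rw [hN]
    exact deg_npl hPD hRD'
  have hNb : ∀ y : Option (Fin r) → ℝ, (∀ o, |y o| ≤ 1) → |eval y N| ≤ M := by
    intro y hy
    rw [hN, eval_npl, map_add, eval_C]
    exact hκ _ (by
      rw [← hP]
      exact npl_box (w := w) (T := F.t ω) W.hc hPd hy)
  have hM0 : 0 ≤ M := (abs_nonneg _).trans (hNb (fun _ => 0) (fun _ => by
    rw [abs_zero]; exact zero_le_one))
  -- the samples
  obtain ⟨y₁, hy₁⟩ : ∃ y₁, y₁ = hv F c g P r ω := ⟨_, rfl⟩
  obtain ⟨y₂, hy₂⟩ : ∃ y₂, y₂ = hv F c g P' r ω' := ⟨_, rfl⟩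
  obtain ⟨v₁, hv₁⟩ : ∃ v₁, v₁ = vv F c g w P r ω := ⟨_, rfl⟩
  obtain ⟨v₂, hv₂⟩ : ∃ v₂, v₂ = vv F c g w P' r ω' := ⟨_, rfl⟩
  have hcube : ∀ ω₀, B ω₀ → ∀ o, |hv F c g (G₁ (ptr F J ω₀)) r ω₀ o| ≤ 1 := by
    intro ω₀ hω₀ o
    cases o with
    | none =>
      show |(0 : ℝ)| ≤ 1
      rw [abs_zero]
      exact zero_le_one
    | some i =>
      show |2 ^ g i * (F.x ω₀ (c i) - eval (bt F ω₀) (G₁ (ptr F J ω₀) i))| ≤ 1
      rw [abs_mul, abs_of_pos (show (0 : ℝ) < 2 ^ g i by positivity)]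
      have h2 := W.pos ω₀ hω₀ i i.2
      refine (mul_le_mul_of_nonneg_left h2 (by positivity)).trans (le_of_eq ?_)
      field_simp
  have hyb₁ : ∀ o, |y₁ o| ≤ 1 := fun o => by rw [hy₁, hP]; exact hcube ω hω o
  have hyb₂ : ∀ o, |y₂ o| ≤ 1 := fun o => by rw [hy₂, hP']; exact hcube ω' hω' o
  have hvb : ∀ o, |v₁ o| ≤ C₁ * 2 ^ x := by
    intro o
    rw [hv₁]
    cases o with
    | none =>
      show |(1 : ℝ)| ≤ _
      rw [abs_one]
      exact one_le_mul_of_one_le_of_one_le hC₁ hx1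
    | some i =>
      show |vy F (c i) (g i) w (P i) ω| ≤ _
      rw [hP]
      exact hvy W ω hω i i.2
  have hyd : ∀ o, |y₁ o - y₂ o| ≤ ε := by
    intro o
    rw [hy₁, hy₂]
    cases o with
    | none =>
      show |(0 : ℝ) - 0| ≤ _
      rw [sub_zero, abs_zero]
      exact hε
    | some i =>
      rw [hP, hP']
      exact hh i i.2
  have hvd : ∀ o, |v₁ o - v₂ o| ≤ ε := by
    intro o
    rw [hv₁, hv₂]
    cases o with
    | none =>
      show |(1 : ℝ) - 1| ≤ _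
      rw [sub_self, abs_zero]
      exact hε
    | some i =>
      rw [hP, hP']
      exact hv' i i.2
  -- the polynomial is the same for both samples
  have hN' : npl c g P' r w (F.t ω') (R + C κ) = N := by
    rw [hN, ← ht]
    have hpo : ∀ k ≤ r, ∀ o, Pool.D2G30.hpo c g P' r k o = Pool.D2G30.hpo c g P r k o := by
      intro k
      induction k with
      | zero => intro _ o; rfl
      | succ k ihk =>
        intro hk' o
        have e1 : Pool.D2G30.hpo c g P' r k = Pool.D2G30.hpo c g P r k := funext (ihk (by omega))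
        show (if o = some (c k) then bind₁ (Pool.D2G30.hpo c g P' r k) (P' k) + _
            else Pool.D2G30.hpo c g P' r k o) =
          (if o = some (c k) then bind₁ (Pool.D2G30.hpo c g P r k) (P k) + _
            else Pool.D2G30.hpo c g P r k o)
        rw [e1, hPe k (by omega)]
    unfold npl pull
    rw [show Pool.D2G30.hpo c g P' r r = Pool.D2G30.hpo c g P r r from funext (hpo r le_rfl)]
  have hDω : 1 / 2 ^ w * dd R (bt F ω) (bd F ω) = ∑ o, eval y₁ (pderiv o N) * v₁ o := by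
    rw [← hdd ω, hN, hy₁, hv₁]
    exact npl_dd W.hc hPd W.wJ ω hRd'
  have hDω' : 1 / 2 ^ w * dd R (bt F ω') (bd F ω') = ∑ o, eval y₂ (pderiv o N) * v₂ o := by
    rw [← hdd ω', ← hN', hy₂, hv₂]
    exact npl_dd W.hc hPd' W.wJ ω' hRd'
  rw [hDω, hDω', ← Finset.sum_sub_distrib]
  refine (Finset.abs_sum_le_sum_abs _ _).trans ?_
  have h2 : ∀ o ∈ (univ : Finset (Option (Fin r))), |eval y₁ (pderiv o N) * v₁ o -
      eval y₂ (pderiv o N) * v₂ o| ≤ (r + 1) * (Cl * (Cp * M) * ε) * (C₁ * 2 ^ x) +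
      Cp * M * ε := by
    intro o _
    have d1 : ∀ y : Option (Fin r) → ℝ, (∀ o, |y o| ≤ 1) →
        |eval y (pderiv o N)| ≤ Cp * M := fun y hy => hpd N M hND hNb y hy o
    have d2 := hlip (pderiv o N) (Cp * M) ((pd_deg N o).trans hND) d1 y₁ y₂ hyb₁ hyb₂ ε hyd
    have e1 : eval y₁ (pderiv o N) * v₁ o - eval y₂ (pderiv o N) * v₂ o =
        (eval y₁ (pderiv o N) - eval y₂ (pderiv o N)) * v₁ o +
        eval y₂ (pderiv o N) * (v₁ o - v₂ o) := by ring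
    rw [e1]
    refine (abs_add_le _ _).trans (add_le_add ?_ ?_)
    · rw [abs_mul]
      refine mul_le_mul d2 (hvb o) (abs_nonneg _) (by positivity)
    · rw [abs_mul]
      exact mul_le_mul (d1 y₂ hyb₂) (hvd o) (abs_nonneg _) (by positivity)
  refine (Finset.sum_le_sum h2).trans ?_
  rw [Finset.sum_const, Finset.card_univ, Fintype.card_option, Fintype.card_fin, nsmul_eq_mul]
  push_cast
  have hMε : 0 ≤ M * ε := by positivity
  have h3 : ((r : ℝ) + 1) * ((r + 1) * (Cl * (Cp * M) * ε) * (C₁ * 2 ^ x) + Cp * M * ε) ≤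
      (r + 1) * ((r + 1) * (Cl * Cp) * C₁ + Cp) * 2 ^ x * (M * ε) := by
    have h4 : Cp * M * ε ≤ Cp * 2 ^ x * (M * ε) := by
      have : Cp * M * ε = Cp * 1 * (M * ε) := by ring
      rw [this]
      exact mul_le_mul_of_nonneg_right (mul_le_mul_of_nonneg_left hx1 (by linarith)) hMε
    have h5 := mul_le_mul_of_nonneg_left h4 (show (0 : ℝ) ≤ r + 1 by positivity)
    calc ((r : ℝ) + 1) * ((r + 1) * (Cl * (Cp * M) * ε) * (C₁ * 2 ^ x) + Cp * M * ε) =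
        (r + 1) * ((r + 1) * (Cl * (Cp * M) * ε) * (C₁ * 2 ^ x)) + (r + 1) * (Cp * M * ε) := by
          ring
      _ ≤ (r + 1) * ((r + 1) * (Cl * (Cp * M) * ε) * (C₁ * 2 ^ x)) +
          (r + 1) * (Cp * 2 ^ x * (M * ε)) := by linarith
      _ = (r + 1) * ((r + 1) * (Cl * Cp) * C₁ + Cp) * 2 ^ x * (M * ε) := by ring
  refine h3.trans ?_
  have h6 : ((r : ℝ) + 1) * ((r + 1) * (Cl * Cp) * C₁ + Cp) * 2 ^ x ≤
      2 ^ ((n + 1) * (x + 1)) := by
    calc ((r : ℝ) + 1) * ((r + 1) * (Cl * Cp) * C₁ + Cp) * 2 ^ x ≤ 2 ^ n * 2 ^ x :=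
        mul_le_mul_of_nonneg_right hn.le (by positivity)
      _ = 2 ^ (n + x) := by rw [pow_add]
      _ ≤ 2 ^ ((n + 1) * (x + 1)) := pow_le_pow_right₀ (by norm_num) (by nlinarith)
  calc ((r : ℝ) + 1) * ((r + 1) * (Cl * Cp) * C₁ + Cp) * 2 ^ x * (M * ε) ≤
      2 ^ ((n + 1) * (x + 1)) * (M * ε) := mul_le_mul_of_nonneg_right h6 hMε
    _ = 2 ^ ((n + 1) * (x + 1)) * M * ε := by ring

/-- **The derivative of the own path over a closed polynomial** is the first jet. -/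
theorem der_cw {m J : ℕ} {F : Fam m J} {w : ℕ} (hw : w ≤ J) (ω : F.Ω) (k : Fin m)
    (P : MvPolynomial (Option (Fin m)) ℝ) :
    (Polynomial.derivative (lc w (slam F w ω) (some k) -
      MvPolynomial.aeval (lc w (slam F w ω)) P)).eval (rt F w ω) =
      1 / 2 ^ w * ojet F k 1 P ω := by
  rw [ojet_vy F k 0 w, Polynomial.derivative_sub, Polynomial.eval_sub, dd_own hw ω P, der_lc,
    Polynomial.eval_C]
  unfold vy
  field_simp

/-- The own path over a polynomial which is closed at an earlier window. -/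
theorem der_np {m J : ℕ} {F : Fam m J} {B : F.Ω → Prop} {w w₀ : ℕ} (hw : w ≤ J) {k : Fin m}
    {V : Type} {zl : LnT F → V} {G : V → MvPolynomial (Option (Fin m)) ℝ}
    {CwL : LnT F → MvPolynomial (Option (Fin m)) ℝ}
    (h : ∀ ω, B ω → CwL (slam F w ω) = G (zl (slam F w₀ ω))) : ∀ ω, B ω →
    (Polynomial.derivative (lc w (slam F w ω) (some k) -
      MvPolynomial.aeval (lc w (slam F w ω)) (CwL (slam F w ω)))).eval (rt F w ω) =
      1 / 2 ^ w * ojet F k 1 (G (zl (slam F w₀ ω))) ω := fun ω hω => by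
  rw [der_cw hw, h ω hω]

/-- **The first jet from the codes**, two samples. -/
theorem jet1_cod {m J : ℕ} {F : Fam m J} {w₀ K : ℕ} (hw : w₀ ≤ J) {σ₀ : ℝ} (hσ : 0 < σ₀)
    {k : Fin m} {V : Type} {zl : LnT F → V} {G : V → MvPolynomial (Option (Fin m)) ℝ}
    (hG : ∀ v, (G v).totalDegree ≤ K) {ω ω' : F.Ω} (hT : F.T ω = F.T ω')
    (h : cod F w₀ 1 (K + 1) σ₀ k zl G ω = cod F w₀ 1 (K + 1) σ₀ k zl G ω') :
    |ojet F k 1 (G (zl (slam F w₀ ω))) ω - ojet F k 1 (G (zl (slam F w₀ ω'))) ω'| ≤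
      (K + 2) * (K + 2) * 2 ^ w₀ / σ₀ := by
  obtain ⟨P, hP⟩ : ∃ P : F.Ω → Polynomial ℝ, P = fun o => dv w₀ (fun s (_ : Fin m) => G (zl s)) k
    (slam F w₀ o) := ⟨_, rfl⟩
  have hPd : ∀ o, (P o).natDegree ≤ K + 1 := by
    intro o
    rw [hP]
    exact natDegree_dv w₀ (K := K) (G := fun s (_ : Fin m) => G (zl s))
      (fun s _ => hG (zl s)) _ _
  have hrt : rt F w₀ ω = rt F w₀ ω' := by
    have h1 := Pool.AVG57.tw_of_T F (W := w₀) hT
    rwa [Pool.AVG57.tw_rt F hw, Pool.AVG57.tw_rt F hw] at h1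
  have e1 : ∀ o : F.Ω, ojet F k 1 (G (zl (slam F w₀ o))) o =
      2 ^ w₀ * (Polynomial.derivative (P o)).eval (rt F w₀ o) := by
    intro o
    have h2 := der_cw hw o k (G (zl (slam F w₀ o)))
    have h3 : (Polynomial.derivative (P o)).eval (rt F w₀ o) =
        1 / 2 ^ w₀ * ojet F k 1 (G (zl (slam F w₀ o))) o := by
      rw [← h2, hP]
      rfl
    rw [h3]
    field_simp
  have hco : ∀ a, 1 ≤ a → |(P ω).coeff a - (P ω').coeff a| ≤ 1 / σ₀ := by
    intro a ha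
    by_cases haK : a ≤ K + 1
    · have h2 := congrFun h ⟨a, by omega⟩
      unfold cod at h2
      have h3 : 1 ≤ ((⟨a, by omega⟩ : Fin (K + 1 + 1)) : ℕ) := ha
      rw [if_pos h3, if_pos h3] at h2
      have h4 : ⌊σ₀ * (P ω).coeff a⌋ = ⌊σ₀ * (P ω').coeff a⌋ := by
        rw [hP]
        exact h2
      have c1 := Int.floor_le (σ₀ * (P ω).coeff a)
      have c2 := Int.lt_floor_add_one (σ₀ * (P ω).coeff a)
      have c3 := Int.floor_le (σ₀ * (P ω').coeff a)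
      have c4 := Int.lt_floor_add_one (σ₀ * (P ω').coeff a)
      rw [h4] at c1 c2
      have h5 : |σ₀ * ((P ω).coeff a - (P ω').coeff a)| ≤ 1 := by
        rw [mul_sub, abs_le]
        constructor <;> linarith
      rw [abs_mul, abs_of_pos hσ] at h5
      rw [le_div_iff₀ hσ]
      linarith
    · rw [Polynomial.coeff_eq_zero_of_natDegree_lt (lt_of_le_of_lt (hPd ω) (by omega)),
        Polynomial.coeff_eq_zero_of_natDegree_lt (lt_of_le_of_lt (hPd ω') (by omega)), sub_self,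
        abs_zero]
      positivity
  have hder : |(Polynomial.derivative (P ω)).eval (rt F w₀ ω) -
      (Polynomial.derivative (P ω')).eval (rt F w₀ ω)| ≤ (K + 2) * (K + 2) / σ₀ := by
    have hθ := rt_mem F w₀ ω
    have h2 : (Polynomial.derivative (P ω)).eval (rt F w₀ ω) -
        (Polynomial.derivative (P ω')).eval (rt F w₀ ω) =
        ∑ a ∈ range (K + 2), ((P ω).coeff (a + 1) - (P ω').coeff (a + 1)) * ((a : ℝ) + 1) *
          rt F w₀ ω ^ a := by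
      have hd : ∀ o, (Polynomial.derivative (P o)).natDegree < K + 2 := fun o =>
        lt_of_le_of_lt ((Polynomial.natDegree_derivative_le _).trans
          (Nat.sub_le_sub_right (hPd o) 1)) (by omega)
      rw [Polynomial.eval_eq_sum_range' (hd ω), Polynomial.eval_eq_sum_range' (hd ω'),
        ← Finset.sum_sub_distrib]
      refine Finset.sum_congr rfl fun a _ => ?_
      rw [Polynomial.coeff_derivative, Polynomial.coeff_derivative]
      ring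
    rw [h2]
    refine (Finset.abs_sum_le_sum_abs _ _).trans ?_
    have h3 : ∀ a ∈ range (K + 2), |((P ω).coeff (a + 1) - (P ω').coeff (a + 1)) * ((a : ℝ) + 1) *
        rt F w₀ ω ^ a| ≤ (K + 2) / σ₀ := by
      intro a ha
      rw [Finset.mem_range] at ha
      rw [abs_mul, abs_mul, abs_of_pos (show (0 : ℝ) < (a : ℝ) + 1 by positivity), abs_pow,
        abs_of_nonneg hθ.1]
      have h4 : rt F w₀ ω ^ a ≤ 1 := pow_le_one₀ hθ.1 hθ.2
      have h5 := hco (a + 1) (by omega)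
      have h6 : (a : ℝ) + 1 ≤ K + 2 := by
        have : ((a + 1 : ℕ) : ℝ) ≤ ((K + 2 : ℕ) : ℝ) := by exact_mod_cast (by omega : a + 1 ≤ K + 2)
        push_cast at this
        linarith
      calc |(P ω).coeff (a + 1) - (P ω').coeff (a + 1)| * ((a : ℝ) + 1) * rt F w₀ ω ^ a ≤
          1 / σ₀ * (K + 2) * 1 := by
            refine mul_le_mul (mul_le_mul h5 h6 (by positivity) (by positivity)) h4
              (pow_nonneg hθ.1 _) (by positivity)
        _ = (K + 2) / σ₀ := by ring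
    refine (Finset.sum_le_sum h3).trans (le_of_eq ?_)
    rw [Finset.sum_const, Finset.card_range, nsmul_eq_mul]
    push_cast
    ring
  rw [e1 ω, e1 ω', ← hrt, ← mul_sub, abs_mul, abs_of_pos (show (0 : ℝ) < 2 ^ w₀ by positivity)]
  refine (mul_le_mul_of_nonneg_left hder (by positivity)).trans (le_of_eq ?_)
  ring

/-- **The velocity of the target over the closed polynomials** (`G` of an earlier window `w₀`, the
chart `R1` of the chain at `w`) is few bits given the own jets of the chain and the labels. -/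
theorem few_np (K D r : ℕ) : ∃ C : ℕ, ∀ {m J : ℕ} {F : Fam m J} {c : ℕ → Fin m}
    {w x : ℕ} {g : ℕ → ℕ} {B : F.Ω → Prop}
    {Gf G₁ : PtT F → ℕ → MvPolynomial (Option (Fin m)) ℝ}
    {H₁ : LnT F → ℕ → MvPolynomial (Option (Fin m)) ℝ}, LabW F c r D w x g B Gf G₁ H₁ →
    ∀ {MB Q M₁ κ w₀ : ℕ} {s : ℕ → ℕ} {k : Fin m} {V : Type} {zl : LnT F → V}
    {G : V → MvPolynomial (Option (Fin m)) ℝ} {np : LnT F → Polynomial ℝ}
    {A1 : PtT F → MvPolynomial (Option (Fin m)) ℝ}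
    {R1 : LnT F → MvPolynomial (Option (Fin m)) ℝ}, w₀ ≤ J → (∀ v, (G v).totalDegree ≤ K) →
    (∀ ω, B ω → (Polynomial.derivative (np (slam F w ω))).eval (rt F w ω) =
      1 / 2 ^ w * ojet F k 1 (G (zl (slam F w₀ ω))) ω) →
    (∀ y, (A1 y).totalDegree ≤ D) → (∀ y, DepC c r (A1 y)) →
    (∀ ω, B ω → A1 (ptr F J ω) = R1 (slam F w ω)) →
    (∀ ω, B ω → ∃ κ₀ : ℝ, ∀ b, NBx c (G₁ (ptr F J ω)) g w (F.t ω) r b →
      |eval b (A1 (ptr F J ω)) + κ₀| ≤ 2 ^ x / 2 ^ M₁) →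
    ∀ {σ₀ : ℝ}, 0 < σ₀ → 2 ^ (s r + (MB - Q)) * 2 ^ w₀ ≤ 2 ^ x * σ₀ * 2 ^ w →
    ∀ σ : ℕ → ℕ → ℝ, (∀ i < r, 2 ^ (g i + κ) ≤ 2 ^ x * σ i 0) →
    (∀ i < r, 2 ^ (g i + κ) ≤ 2 ^ x * (σ i 1 * 2 ^ w)) → s r + (MB - Q) ≤ M₁ + κ + x →
    ∀ q : F.Ω → ℝ, IsLaw q → (∀ ω, 0 < q ω → B ω) → ∀ {W₁ : Type} (z₁ : F.Ω → W₁),
    (∀ ω ω', 0 < q ω → 0 < q ω' → z₁ ω = z₁ ω' →
      (∀ l < r, G₁ (ptr F J ω) l = G₁ (ptr F J ω') l) ∧ A1 (ptr F J ω) = A1 (ptr F J ω')) →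
    ∀ {δ₁ : ℝ}, CH q (cod F w₀ 1 (K + 1) σ₀ k zl G)
      (fun ω => (uV F c r G₁ σ ω, (z₁ ω, F.T ω))) ≤ δ₁ →
    CH q (fun ω => ⌊2 ^ (MB - Q) * (Polynomial.derivative (nT F s r w np R1 (slam F w ω))).eval
      (rt F w ω)⌋) (fun ω => (uV F c r G₁ σ ω, (z₁ ω, F.T ω))) ≤ δ₁ + C * (x + 1) := by
  classical
  obtain ⟨C₁, htwo⟩ := two_dd D r
  obtain ⟨n, hn⟩ := pow_unbounded_of_one_lt (((K : ℝ) + 2) * (K + 2)) (one_lt_two (α := ℝ))
  refine ⟨C₁ + n + 6, ?_⟩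
  intro m J F c w x g B Gf G₁ H₁ W MB Q M₁ κ w₀ s k V zl G np A1 R1 hw0 hG hnp hAD hAp hcl hAb
    σ₀ hσ₀ hnum σ hσ0 hσ1 hnum2 q hq hqB W₁ z₁ hz₁ δ₁ hcod
  have h0 := hq.nonneg
  obtain ⟨Y, hY⟩ : ∃ Y : F.Ω → (ℕ → ℕ → ℤ) × (W₁ × ℕ),
    Y = fun ω => (uV F c r G₁ σ ω, (z₁ ω, F.T ω)) := ⟨_, rfl⟩
  obtain ⟨X, hX⟩ : ∃ X : F.Ω → ℤ, X = fun ω => ⌊2 ^ (MB - Q) *
    (Polynomial.derivative (nT F s r w np R1 (slam F w ω))).eval (rt F w ω)⌋ := ⟨_, rfl⟩
  obtain ⟨Z, hZ⟩ : ∃ Z : F.Ω → (Fin (K + 1 + 1) → ℤ), Z = cod F w₀ 1 (K + 1) σ₀ k zl G := ⟨_, rfl⟩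
  rw [← hX, ← hY]
  rw [← hY, ← hZ] at hcod
  have hval : ∀ ω, B ω → 2 ^ (MB - Q) *
      (Polynomial.derivative (nT F s r w np R1 (slam F w ω))).eval (rt F w ω) =
      2 ^ (s r + (MB - Q)) * (1 / 2 ^ w) * ojet F k 1 (G (zl (slam F w₀ ω))) ω -
      2 ^ (s r + (MB - Q)) * (1 / 2 ^ w * dd (A1 (ptr F J ω)) (bt F ω) (bd F ω)) := by
    intro ω hω
    unfold nT
    rw [Polynomial.derivative_C_mul, Polynomial.eval_mul, Polynomial.eval_C,
      Polynomial.derivative_sub, Polynomial.eval_sub, hnp ω hω, dd_own W.wJ ω, ← hcl ω hω]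
    rw [pow_add]
    ring
  have key : ∀ ω ω', 0 < q ω → 0 < q ω' → (Z ω, Y ω) = (Z ω', Y ω') →
      |((X ω : ℤ) : ℝ) - (X ω' : ℤ)| ≤ 2 ^ ((C₁ + n + 3) * (x + 1)) + 1 := by
    intro ω ω' hω hω' e
    rw [hY] at e
    simp only [Prod.mk.injEq] at e
    obtain ⟨eZ, eU, ez, eT⟩ := e
    obtain ⟨eG, eA⟩ := hz₁ ω ω' hω hω' ez
    have hBω := hqB ω hω
    have hBω' := hqB ω' hω'
    have ht : F.t ω = F.t ω' := by
      show (F.T ω : ℝ) / 2 ^ J = (F.T ω' : ℝ) / 2 ^ J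
      rw [eT]
    have hfl : ∀ a b M : ℝ, |a - b| ≤ M → |((⌊a⌋ : ℤ) : ℝ) - (⌊b⌋ : ℤ)| ≤ M + 1 := by
      intro a b M h
      have c1 := Int.floor_le a
      have c2 := Int.lt_floor_add_one a
      have c3 := Int.floor_le b
      have c4 := Int.lt_floor_add_one b
      rw [abs_le] at h ⊢
      constructor <;> linarith [h.1, h.2]
    rw [hX]
    refine hfl _ _ _ ?_
    rw [hval ω hBω, hval ω' hBω']
    -- the first jet
    have hj := jet1_cod hw0 hσ₀ hG eT (by rw [hZ] at eZ; exact eZ)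
    -- the chain
    have hfl2 : ∀ (a b σ' : ℝ), 0 < σ' → ⌊σ' * a⌋ = ⌊σ' * b⌋ → |a - b| ≤ 1 / σ' := by
      intro a b σ' hσ' h
      have c1 := Int.floor_le (σ' * a)
      have c2 := Int.lt_floor_add_one (σ' * a)
      have c3 := Int.floor_le (σ' * b)
      have c4 := Int.lt_floor_add_one (σ' * b)
      rw [h] at c1 c2
      have h5 : |σ' * (a - b)| ≤ 1 := by
        rw [mul_sub, abs_le]
        constructor <;> linarith
      rw [abs_mul, abs_of_pos hσ'] at h5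
      rw [le_div_iff₀ hσ']
      linarith
    have hp0 : ∀ i < r, 0 < σ i 0 := fun i hi => by
      have h1 := hσ0 i hi
      have h2 : (0 : ℝ) < 2 ^ x * σ i 0 := lt_of_lt_of_le (by positivity) h1
      exact (mul_pos_iff_of_pos_left (by positivity)).1 h2
    have hp1 : ∀ i < r, 0 < σ i 1 := fun i hi => by
      have h1 := hσ1 i hi
      have h2 : (0 : ℝ) < 2 ^ x * (σ i 1 * 2 ^ w) := lt_of_lt_of_le (by positivity) h1
      have h3 := (mul_pos_iff_of_pos_left (by positivity : (0 : ℝ) < 2 ^ x)).1 h2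
      exact (mul_pos_iff_of_pos_right (by positivity)).1 h3
    have hUu : ∀ i < r, ∀ j ≤ 1, ⌊σ i j * ojet F (c i) j (G₁ (ptr F J ω) i) ω⌋ =
        ⌊σ i j * ojet F (c i) j (G₁ (ptr F J ω') i) ω'⌋ := by
      intro i hi j hj'
      have h1 := congrFun (congrFun eU i) j
      unfold uV at h1
      rwa [if_pos ⟨hi, hj'⟩, if_pos ⟨hi, hj'⟩] at h1
    have hyn : ∀ l < r, |hy F (c l) (g l) (G₁ (ptr F J ω) l) ω -
        hy F (c l) (g l) (G₁ (ptr F J ω') l) ω'| ≤ 2 ^ x / 2 ^ κ := by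
      intro l hl
      have h1 := hfl2 _ _ _ (hp0 l hl) (hUu l hl 0 (by omega))
      rw [ojet_hy F (c l) (g l), ojet_hy F (c l) (g l), ← sub_div, abs_div,
        abs_of_pos (show (0 : ℝ) < 2 ^ g l by positivity), div_le_iff₀ (by positivity)] at h1
      refine h1.trans ?_
      have h2 := hσ0 l hl
      rw [pow_add] at h2
      rw [div_mul_eq_mul_div, one_mul, div_le_div_iff₀ (hp0 l hl) (by positivity)]
      exact h2
    have vyn : ∀ l < r, |vy F (c l) (g l) w (G₁ (ptr F J ω) l) ω -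
        vy F (c l) (g l) w (G₁ (ptr F J ω') l) ω'| ≤ 2 ^ x / 2 ^ κ := by
      intro l hl
      have h1 := hfl2 _ _ _ (hp1 l hl) (hUu l hl 1 le_rfl)
      rw [ojet_vy F (c l) (g l) w, ojet_vy F (c l) (g l) w, ← sub_div, ← mul_sub, abs_div,
        abs_mul, abs_of_pos (show (0 : ℝ) < 2 ^ w by positivity),
        abs_of_pos (show (0 : ℝ) < 2 ^ g l by positivity), div_le_iff₀ (by positivity)] at h1
      have h2 := hσ1 l hl
      rw [pow_add] at h2
      have h3 : |vy F (c l) (g l) w (G₁ (ptr F J ω) l) ω -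
          vy F (c l) (g l) w (G₁ (ptr F J ω') l) ω'| ≤ 2 ^ g l / (σ l 1 * 2 ^ w) := by
        rw [le_div_iff₀ (by have := hp1 l hl; positivity)]
        have h4 := mul_le_mul_of_nonneg_left h1 (hp1 l hl).le
        have h5 : σ l 1 * (1 / σ l 1 * 2 ^ g l) = 2 ^ g l := by
          have := (hp1 l hl).ne'
          field_simp
        rw [h5] at h4
        linarith
      refine h3.trans ?_
      rw [div_le_div_iff₀ (by have := hp1 l hl; positivity) (by positivity)]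
      exact h2
    obtain ⟨κ₀, hκ₀⟩ := hAb ω hBω
    have hdd := htwo W ω ω' hBω hBω' ht eG (A1 (ptr F J ω)) (hAD _) (hAp _)
      (2 ^ x / 2 ^ M₁) κ₀ hκ₀ (2 ^ x / 2 ^ κ) (by positivity) hyn vyn
    rw [← eA]
    have e1 : 2 ^ (s r + (MB - Q)) * (1 / 2 ^ w) * ojet F k 1 (G (zl (slam F w₀ ω))) ω -
        2 ^ (s r + (MB - Q)) * (1 / 2 ^ w * dd (A1 (ptr F J ω)) (bt F ω) (bd F ω)) -
        (2 ^ (s r + (MB - Q)) * (1 / 2 ^ w) * ojet F k 1 (G (zl (slam F w₀ ω'))) ω' -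
        2 ^ (s r + (MB - Q)) * (1 / 2 ^ w * dd (A1 (ptr F J ω)) (bt F ω') (bd F ω'))) =
        2 ^ (s r + (MB - Q)) * (1 / 2 ^ w) * (ojet F k 1 (G (zl (slam F w₀ ω))) ω -
          ojet F k 1 (G (zl (slam F w₀ ω'))) ω') -
        2 ^ (s r + (MB - Q)) * (1 / 2 ^ w * dd (A1 (ptr F J ω)) (bt F ω) (bd F ω) -
          1 / 2 ^ w * dd (A1 (ptr F J ω)) (bt F ω') (bd F ω')) := by ring
    rw [e1]
    refine (abs_sub _ _).trans ?_
    rw [abs_mul (2 ^ (s r + (MB - Q)) * (1 / 2 ^ w)),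
      abs_of_pos (show (0 : ℝ) < 2 ^ (s r + (MB - Q)) * (1 / 2 ^ w) by positivity),
      abs_mul (2 ^ (s r + (MB - Q))), abs_of_pos (show (0 : ℝ) < 2 ^ (s r + (MB - Q)) by
      positivity)]
    have p1 : 2 ^ (s r + (MB - Q)) * (1 / 2 ^ w) * |ojet F k 1 (G (zl (slam F w₀ ω))) ω -
        ojet F k 1 (G (zl (slam F w₀ ω'))) ω'| ≤ ((K : ℝ) + 2) * (K + 2) * 2 ^ x := by
      refine (mul_le_mul_of_nonneg_left hj (by positivity)).trans ?_
      have e2 : (2 : ℝ) ^ (s r + (MB - Q)) * (1 / 2 ^ w) * ((K + 2) * (K + 2) * 2 ^ w₀ / σ₀) =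
          ((K : ℝ) + 2) * (K + 2) * ((2 ^ (s r + (MB - Q)) * 2 ^ w₀) / (σ₀ * 2 ^ w)) := by
        field_simp
      rw [e2]
      refine mul_le_mul_of_nonneg_left ?_ (by positivity)
      rw [div_le_iff₀ (by positivity)]
      linarith
    have p2 : 2 ^ (s r + (MB - Q)) * |1 / 2 ^ w * dd (A1 (ptr F J ω)) (bt F ω) (bd F ω) -
        1 / 2 ^ w * dd (A1 (ptr F J ω)) (bt F ω') (bd F ω')| ≤
        2 ^ (C₁ * (x + 1)) * 2 ^ (3 * x) := by
      refine (mul_le_mul_of_nonneg_left hdd (by positivity)).trans ?_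
      have h1 : (2 : ℝ) ^ (s r + (MB - Q)) ≤ 2 ^ M₁ * 2 ^ κ * 2 ^ x := by
        rw [← pow_add, ← pow_add]
        exact pow_le_pow_right₀ (by norm_num) hnum2
      calc (2 : ℝ) ^ (s r + (MB - Q)) * (2 ^ (C₁ * (x + 1)) * (2 ^ x / 2 ^ M₁) * (2 ^ x / 2 ^ κ))
          ≤ 2 ^ M₁ * 2 ^ κ * 2 ^ x *
            (2 ^ (C₁ * (x + 1)) * (2 ^ x / 2 ^ M₁) * (2 ^ x / 2 ^ κ)) :=
            mul_le_mul_of_nonneg_right h1 (by positivity)
        _ = 2 ^ (C₁ * (x + 1)) * 2 ^ (3 * x) := by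
            rw [show 3 * x = x + x + x by ring, pow_add, pow_add]
            field_simp
    refine (add_le_add p1 p2).trans ?_
    have h2 : ((K : ℝ) + 2) * (K + 2) * 2 ^ x ≤ 2 ^ (n + x) := by
      rw [pow_add]
      exact mul_le_mul_of_nonneg_right hn.le (by positivity)
    have h3 : (2 : ℝ) ^ (n + x) ≤ 2 ^ ((C₁ + n + 3) * (x + 1) - 1) :=
      pow_le_pow_right₀ (by norm_num) (by
        have : (C₁ + n + 3) * (x + 1) = C₁ * (x + 1) + n * x + n + 3 * x + 3 := by ring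
        have h4 : 0 ≤ C₁ * (x + 1) := Nat.zero_le _
        have h5 : 0 ≤ n * x := Nat.zero_le _
        omega)
    have h4 : (2 : ℝ) ^ (C₁ * (x + 1)) * 2 ^ (3 * x) ≤ 2 ^ ((C₁ + n + 3) * (x + 1) - 1) := by
      rw [← pow_add]
      refine pow_le_pow_right₀ (by norm_num) ?_
      have : (C₁ + n + 3) * (x + 1) = C₁ * (x + 1) + n * x + n + 3 * x + 3 := by ring
      have h5 : 0 ≤ n * x := Nat.zero_le _
      omega
    have h5 : (2 : ℝ) ^ ((C₁ + n + 3) * (x + 1)) = 2 * 2 ^ ((C₁ + n + 3) * (x + 1) - 1) := by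
      rw [← pow_succ']
      congr 1
    linarith
  have k1 := Pool.AVG71.CH_pair_int hq X (fun ω => (Z ω, Y ω)) (D := 2 ^ ((C₁ + n + 3) * (x + 1)) + 1)
    (by positivity) key
  have k2 : Real.log (2 * (2 ^ ((C₁ + n + 3) * (x + 1)) + 1) + 1) ≤
      (C₁ + n + 6) * (x + 1) := by
    have h3 : (2 : ℝ) * (2 ^ ((C₁ + n + 3) * (x + 1)) + 1) + 1 ≤
        2 ^ ((C₁ + n + 6) * (x + 1)) := by
      have h4 : (1 : ℝ) ≤ 2 ^ ((C₁ + n + 3) * (x + 1)) := one_le_pow₀ (by norm_num)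
      have h5 : (2 : ℝ) ^ ((C₁ + n + 3) * (x + 1) + 3) ≤ 2 ^ ((C₁ + n + 6) * (x + 1)) :=
        pow_le_pow_right₀ (by norm_num) (by nlinarith)
      rw [pow_add _ _ 3] at h5
      linarith
    refine (Real.log_le_log (by positivity) h3).trans ?_
    rw [Real.log_pow]
    have h4 := Real.log_two_lt_d9
    push_cast
    have h5 : (0 : ℝ) ≤ (C₁ + n + 6) * (x + 1) := by positivity
    nlinarith
  have k3 := CH_le_add h0 X Z Y
  push_cast
  linarith

end Pool.VLF71
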