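import Pool.Agent.H71.VLF.Cub

/-!
# Two samples with the same charts: change of the frame

`LabW`: labels `G₁ = H₁` closed at the window `w`, which differ from the frame `Gf` by a constant, up
to the natural error, on the natural boxes. `two_smp`: two samples with the same charts and the same
time: if their heights and velocities over the frame `Gf` are near, then their heights and velocities
over `G₁` are near.
-/

set_option autoImplicit false

namespace Pool.VLF71

open Finset Real MvPolynomial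
open Pool.KA Pool.KSAT Pool.PB Pool.GEN Pool.D2R Pool.D2G30 Pool.ISO Pool.CHT Pool.CHX Pool.V1E
open Pool.PB.Trl (rt rt_mem t_rt)
open Pool.K2S (Sub)

variable {m J : ℕ}

/-- The height of the coordinate `c l` over the chart `P`, natural units `2 ^ (-g)`. -/
noncomputable def hy (F : Fam m J) (k : Fin m) (g : ℕ) (P : MvPolynomial (Option (Fin m)) ℝ)
    (ω : F.Ω) : ℝ := 2 ^ g * (F.x ω k - eval (bt F ω) P)

/-- The velocity of the coordinate `c l` over the chart `P`, natural units. -/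
noncomputable def vy (F : Fam m J) (k : Fin m) (g w : ℕ) (P : MvPolynomial (Option (Fin m)) ℝ)
    (ω : F.Ω) : ℝ := 2 ^ g * (1 / 2 ^ w * (bd F ω (some k) - dd P (bt F ω) (bd F ω)))

/-- **Labels closed at the window `w`** against a frame. -/
structure LabW (F : Fam m J) (c : ℕ → Fin m) (r D w x : ℕ) (g : ℕ → ℕ) (B : F.Ω → Prop)
    (Gf G₁ : PtT F → ℕ → MvPolynomial (Option (Fin m)) ℝ)
    (H₁ : LnT F → ℕ → MvPolynomial (Option (Fin m)) ℝ) : Prop where
  hc : Set.InjOn c (Set.Iio r)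
  wJ : w ≤ J
  dF : ∀ y l, (Gf y l).totalDegree ≤ D
  pF : ∀ y l, DepC c l (Gf y l)
  dG : ∀ y l, (G₁ y l).totalDegree ≤ D
  pG : ∀ y l, DepC c l (G₁ y l)
  dH : ∀ s l, (H₁ s l).totalDegree ≤ D
  cl : ∀ ω, B ω → ∀ l < r, G₁ (ptr F J ω) l = H₁ (slam F w ω) l
  pos : ∀ ω, B ω → ∀ l < r, |F.x ω (c l) - eval (bt F ω) (G₁ (ptr F J ω) l)| ≤ 1 / 2 ^ g l
  own : ∀ ω, B ω → ∀ l < r, ∀ τ ∈ Set.Icc (0 : ℝ) 1,
    |(dv w (fun s _ => H₁ s l) (c l) (slam F w ω)).eval τ| ≤ 2 ^ x / 2 ^ g l
  agr : ∀ ω, B ω → ∀ l < r, ∃ κ : ℝ, ∀ b, NBx c (G₁ (ptr F J ω)) g w (F.t ω) l b →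
    |eval b (Gf (ptr F J ω) l) + κ - eval b (G₁ (ptr F J ω) l)| ≤ 2 ^ x / 2 ^ g l

theorem LabW.sub {F : Fam m J} {c : ℕ → Fin m} {r D w x : ℕ} {g : ℕ → ℕ} {B B' : F.Ω → Prop}
    {Gf G₁ : PtT F → ℕ → MvPolynomial (Option (Fin m)) ℝ}
    {H₁ : LnT F → ℕ → MvPolynomial (Option (Fin m)) ℝ} (W : LabW F c r D w x g B Gf G₁ H₁)
    (h : Sub B' B) : LabW F c r D w x g B' Gf G₁ H₁ where
  hc := W.hc
  wJ := W.wJ
  dF := W.dF
  pF := W.pF
  dG := W.dG
  pG := W.pG
  dH := W.dH
  cl := fun ω hω => W.cl ω (h ω hω)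
  pos := fun ω hω => W.pos ω (h ω hω)
  own := fun ω hω => W.own ω (h ω hω)
  agr := fun ω hω => W.agr ω (h ω hω)

section one

variable {F : Fam m J} {c : ℕ → Fin m} {w : ℕ} {g : ℕ → ℕ}
  {P : ℕ → MvPolynomial (Option (Fin m)) ℝ} {l : ℕ}

/-- The derivative of the height along the own line. -/
theorem der_hL (hw : w ≤ J) (ω : F.Ω) (i : Fin l) :
    (Polynomial.derivative (hL c g l w P (slam F w ω) (some i))).eval (rt F w ω) =
      vy F (c i) (g i) w (P i) ω := by
  show (Polynomial.derivative (Polynomial.C (2 ^ g i) * (lc w (slam F w ω) (some (c i)) -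
      MvPolynomial.aeval (lc w (slam F w ω)) (P i)))).eval (rt F w ω) = _
  rw [Polynomial.derivative_C_mul, Polynomial.eval_mul, Polynomial.eval_C,
    Polynomial.derivative_sub, Polynomial.eval_sub, dd_own hw ω (P i), der_lc,
    Polynomial.eval_C]
  unfold vy
  ring

/-- The vector of the heights. -/
noncomputable def hv (F : Fam m J) (c : ℕ → Fin m) (g : ℕ → ℕ)
    (P : ℕ → MvPolynomial (Option (Fin m)) ℝ) (l : ℕ) (ω : F.Ω) : Option (Fin l) → ℝ
  | none => 0
  | some i => hy F (c i) (g i) (P i) ω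

/-- The vector of the velocities. -/
noncomputable def vv (F : Fam m J) (c : ℕ → Fin m) (g : ℕ → ℕ) (w : ℕ)
    (P : ℕ → MvPolynomial (Option (Fin m)) ℝ) (l : ℕ) (ω : F.Ω) : Option (Fin l) → ℝ
  | none => 1
  | some i => vy F (c i) (g i) w (P i) ω

theorem nyp_hv (ω : F.Ω) : nyp w (F.t ω) (hv F c g P l ω) = yp c g l P (bt F ω) := by
  funext o
  cases o with
  | none =>
    show F.t ω + 1 / 2 ^ w * 0 = bt F ω none
    rw [mul_zero, add_zero]
    rfl
  | some i => rfl

/-- The value at the sample. -/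
theorem npl_eval (hc : Set.InjOn c (Set.Iio l)) (hdep : ∀ l, DepC c l (P l)) (ω : F.Ω)
    {R : MvPolynomial (Option (Fin m)) ℝ} (hR : DepC c l R) :
    eval (hv F c g P l ω) (npl c g P l w (F.t ω) R) = eval (bt F ω) R := by
  rw [eval_npl, nyp_hv]
  obtain ⟨h0, h1⟩ := hp_yp (s := g) hc hdep (bt F ω)
  exact hR _ _ h0 h1

/-- The derivative along the own line. -/
theorem npl_dd (hc : Set.InjOn c (Set.Iio l)) (hdep : ∀ l, DepC c l (P l)) (hw : w ≤ J) (ω : F.Ω)
    {R : MvPolynomial (Option (Fin m)) ℝ} (hR : DepC c l R) :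
    1 / 2 ^ w * dd R (bt F ω) (bd F ω) = ∑ o : Option (Fin l),
      eval (hv F c g P l ω) (pderiv o (npl c g P l w (F.t ω) R)) * vv F c g w P l ω o := by
  rw [der_own (s := g) hc hdep hw ω hR]
  refine Finset.sum_congr rfl fun o _ => ?_
  rw [pd_npl, nyp_hv]
  have e : (fun o => (hL c g l w P (slam F w ω) o).eval (rt F w ω)) = yp c g l P (bt F ω) :=
    funext fun o' => hL_yp hw P ω o'
  rw [e, mul_assoc]
  congr 1
  cases o with
  | none =>
    show (Polynomial.derivative (lc w (slam F w ω) none)).eval _ = 1 / 2 ^ w * 1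
    rw [der_lc, Polynomial.eval_C]
    rfl
  | some i =>
    rw [der_hL hw ω i]
    show _ = 1 * vy F (c i) (g i) w (P i) ω
    rw [one_mul]

end one

/-- The velocities are natural. -/
theorem vy_le (D : ℕ) : ∃ C : ℝ, 1 ≤ C ∧ ∀ {m J : ℕ} {F : Fam m J} {c : ℕ → Fin m}
    {r w x : ℕ} {g : ℕ → ℕ} {B : F.Ω → Prop}
    {Gf G₁ : PtT F → ℕ → MvPolynomial (Option (Fin m)) ℝ}
    {H₁ : LnT F → ℕ → MvPolynomial (Option (Fin m)) ℝ}, LabW F c r D w x g B Gf G₁ H₁ →
    ∀ ω, B ω → ∀ l < r, |vy F (c l) (g l) w (G₁ (ptr F J ω) l) ω| ≤ C * 2 ^ x := by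
  obtain ⟨C, hC, hder⟩ := der_one (D + 1)
  refine ⟨C, hC, ?_⟩
  intro m J F c r w x g B Gf G₁ H₁ W ω hω l hl
  have h1 := hder (dv w (fun s _ => H₁ s l) (c l) (slam F w ω)) (2 ^ x / 2 ^ g l)
    (natDegree_dv w (G := fun s (_ : Fin m) => H₁ s l) (fun s _ => W.dH s l) (c l) _)
    (W.own ω hω l hl) (rt F w ω) (by
      have := rt_mem F w ω
      rw [abs_of_nonneg this.1]
      exact this.2)
  have e1 : vy F (c l) (g l) w (G₁ (ptr F J ω) l) ω = 2 ^ g l *
      (Polynomial.derivative (dv w (fun s _ => H₁ s l) (c l) (slam F w ω))).eval (rt F w ω) := by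
    unfold dv vy
    rw [W.cl ω hω l hl, Polynomial.derivative_sub, Polynomial.eval_sub]
    beta_reduce
    rw [dd_own W.wJ ω (H₁ (slam F w ω) l), der_lc, Polynomial.eval_C]
    ring
  rw [e1, abs_mul, abs_of_pos (show (0 : ℝ) < 2 ^ g l by positivity)]
  refine (mul_le_mul_of_nonneg_left h1 (by positivity)).trans (le_of_eq ?_)
  field_simp

/-- **Two samples with the same charts**: near heights and velocities over the frame give near
heights and velocities over the labels. -/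
theorem two_smp (D r : ℕ) : ∃ C : ℕ, ∀ {m J : ℕ} {F : Fam m J} {c : ℕ → Fin m}
    {w x : ℕ} {g s : ℕ → ℕ} {B : F.Ω → Prop}
    {Gf G₁ : PtT F → ℕ → MvPolynomial (Option (Fin m)) ℝ}
    {H₁ : LnT F → ℕ → MvPolynomial (Option (Fin m)) ℝ}, LabW F c r D w x g B Gf G₁ H₁ →
    (∀ l < r, g l ≤ s l + x) → ∀ ω ω', B ω → B ω' → F.t ω = F.t ω' →
    (∀ l < r, Gf (ptr F J ω) l = Gf (ptr F J ω') l) →
    (∀ l < r, G₁ (ptr F J ω) l = G₁ (ptr F J ω') l) → ∀ ε : ℝ, 0 ≤ ε →
    (∀ l < r, |hy F (c l) (s l) (Gf (ptr F J ω) l) ω -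
      hy F (c l) (s l) (Gf (ptr F J ω') l) ω'| ≤ ε) →
    (∀ l < r, |vy F (c l) (s l) w (Gf (ptr F J ω) l) ω -
      vy F (c l) (s l) w (Gf (ptr F J ω') l) ω'| ≤ ε) →
    ∀ l < r, |hy F (c l) (g l) (G₁ (ptr F J ω) l) ω -
      hy F (c l) (g l) (G₁ (ptr F J ω') l) ω'| ≤ 2 ^ (C * (x + 1)) * ε ∧
      |vy F (c l) (g l) w (G₁ (ptr F J ω) l) ω -
      vy F (c l) (g l) w (G₁ (ptr F J ω') l) ω'| ≤ 2 ^ (C * (x + 1)) * ε := by
  classical
  obtain ⟨C₁, hC₁, hvy⟩ := vy_le D
  have hall := fun l : ℕ => cub_pd (D * (D + 1) ^ l)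
  have hall2 := fun l : ℕ => cub_lip (D * (D + 1) ^ l)
  choose Cp hCp hpd using hall
  choose Cl hCl hlip using hall2
  obtain ⟨A, hA⟩ : ∃ A : ℝ, A = C₁ + ∑ l ∈ range (r + 1), (Cp l + Cl l) := ⟨_, rfl⟩
  have hA1 : 1 ≤ A := by
    rw [hA]
    have : 0 ≤ ∑ l ∈ range (r + 1), (Cp l + Cl l) :=
      Finset.sum_nonneg fun l _ => by linarith [hCp l, hCl l]
    linarith
  have hAl : ∀ l < r, C₁ ≤ A ∧ Cp l ≤ A ∧ Cl l ≤ A := by
    intro l hl
    have h1 := Finset.single_le_sum (f := fun l => Cp l + Cl l)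
      (fun l _ => by linarith [hCp l, hCl l]) (Finset.mem_range.2 (show l < r + 1 by omega))
    have h2 : 0 ≤ ∑ l ∈ range (r + 1), (Cp l + Cl l) :=
      Finset.sum_nonneg fun l _ => by linarith [hCp l, hCl l]
    refine ⟨by linarith, by linarith [hCp l, hCl l], by linarith [hCp l, hCl l]⟩
  obtain ⟨n, hn⟩ := pow_unbounded_of_one_lt (1 + (r + 1) * (A * ((r + 2) * (A * A))) +
    (r + 1) * A) (one_lt_two (α := ℝ))
  refine ⟨(n + 3) * r, ?_⟩
  intro m J F c w x g s B Gf G₁ H₁ W hgs ω ω' hω hω' ht hGf hG₁ ε hε hh hv' 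
  obtain ⟨Z, hZ⟩ : ∃ Z : ℝ, Z = 2 ^ ((n + 3) * (x + 1)) := ⟨_, rfl⟩
  have hr0 : (0 : ℝ) ≤ r := Nat.cast_nonneg r
  have hx1 : (1 : ℝ) ≤ 2 ^ x := one_le_pow₀ (by norm_num)
  have hZ1 : 1 ≤ Z := by
    rw [hZ]
    exact one_le_pow₀ (by norm_num)
  -- the step constant
  have hstep : 2 ^ x + (r + 1) * (A * ((r + 2) * (A * A)) * 2 ^ (2 * x)) + (r + 1) * A * 2 ^ x ≤
      Z := by
    have h1 : (2 : ℝ) ^ x ≤ 2 ^ (2 * x) := pow_le_pow_right₀ (by norm_num) (by omega)
    have h0 : (0 : ℝ) < 2 ^ (2 * x) := by positivity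
    have hA0 : 0 ≤ A := by linarith
    calc (2 : ℝ) ^ x + (r + 1) * (A * ((r + 2) * (A * A)) * 2 ^ (2 * x)) + (r + 1) * A * 2 ^ x ≤
        2 ^ (2 * x) + (r + 1) * (A * ((r + 2) * (A * A)) * 2 ^ (2 * x)) +
          (r + 1) * A * 2 ^ (2 * x) := by
          have := mul_le_mul_of_nonneg_left h1 (show 0 ≤ ((r : ℝ) + 1) * A by positivity)
          linarith
      _ = (1 + (r + 1) * (A * ((r + 2) * (A * A))) + (r + 1) * A) * 2 ^ (2 * x) := by ring
      _ ≤ 2 ^ n * 2 ^ (2 * x) := mul_le_mul_of_nonneg_right hn.le h0.le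
      _ = 2 ^ (n + 2 * x) := by rw [pow_add]
      _ ≤ Z := by
          rw [hZ]
          exact pow_le_pow_right₀ (by norm_num) (by nlinarith)
  -- the induction
  have key : ∀ k ≤ r, ∀ l < k, |hy F (c l) (g l) (G₁ (ptr F J ω) l) ω -
      hy F (c l) (g l) (G₁ (ptr F J ω') l) ω'| ≤ Z ^ k * ε ∧
      |vy F (c l) (g l) w (G₁ (ptr F J ω) l) ω -
      vy F (c l) (g l) w (G₁ (ptr F J ω') l) ω'| ≤ Z ^ k * ε := by
    intro k
    induction k with
    | zero => exact fun _ l hl => absurd hl (Nat.not_lt_zero l)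
    | succ k ih =>
      intro hk l hl
      have hZk : Z ^ k * ε ≤ Z ^ (k + 1) * ε :=
        mul_le_mul_of_nonneg_right (pow_le_pow_right₀ hZ1 (Nat.le_succ k)) hε
      rcases Nat.lt_or_ge l k with h1 | h1
      · have h2 := ih (by omega) l h1
        exact ⟨h2.1.trans hZk, h2.2.trans hZk⟩
      obtain rfl : l = k := by omega
      have hIH := ih (by omega)
      have hlr : l < r := by omega
      obtain ⟨a1, a2, a3⟩ := hAl l hlr
      obtain ⟨κ, hκ⟩ := W.agr ω hω l hlr
      obtain ⟨P, hP⟩ : ∃ P : ℕ → MvPolynomial (Option (Fin m)) ℝ, P = G₁ (ptr F J ω) := ⟨_, rfl⟩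
      obtain ⟨P', hP'⟩ : ∃ P' : ℕ → MvPolynomial (Option (Fin m)) ℝ, P' = G₁ (ptr F J ω') :=
        ⟨_, rfl⟩
      obtain ⟨R, hR⟩ : ∃ R : MvPolynomial (Option (Fin m)) ℝ,
        R = C (2 ^ g l) * (Gf (ptr F J ω) l + C κ - P l) := ⟨_, rfl⟩
      have hcl : Set.InjOn c (Set.Iio l) := W.hc.mono fun y hy => Set.mem_Iio.2 (by
        have := Set.mem_Iio.1 hy
        omega)
      have hPd : ∀ l, DepC c l (P l) := fun l => by rw [hP]; exact W.pG _ l
      have hPd' : ∀ l, DepC c l (P' l) := fun l => by rw [hP']; exact W.pG _ l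
      have hPD : ∀ l, (P l).totalDegree ≤ D := fun l => by rw [hP]; exact W.dG _ l
      have hPe : ∀ l < r, P l = P' l := fun l hl => by rw [hP, hP']; exact hG₁ l hl
      have hRd : DepC c l R := by
        intro b b' h0 h1
        rw [hR, map_mul, map_mul, map_sub, map_sub, map_add, map_add, eval_C, eval_C, eval_C,
          eval_C, W.pF _ l b b' h0 h1, hPd l b b' h0 h1]
      have hRD : R.totalDegree ≤ D := by
        rw [hR]
        refine (totalDegree_mul _ _).trans ?_
        rw [totalDegree_C, Nat.zero_add]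
        refine (totalDegree_sub _ _).trans (max_le ((totalDegree_add _ _).trans (max_le
          (W.dF _ l) ?_)) (hPD l))
        rw [totalDegree_C]
        exact Nat.zero_le _
      obtain ⟨N, hN⟩ : ∃ N : MvPolynomial (Option (Fin l)) ℝ, N = npl c g P l w (F.t ω) R :=
        ⟨_, rfl⟩
      have hND : N.totalDegree ≤ D * (D + 1) ^ l := by
        rw [hN]
        exact deg_npl hPD hRD
      have hNb : ∀ y : Option (Fin l) → ℝ, (∀ o, |y o| ≤ 1) → |eval y N| ≤ 2 ^ x := by
        intro y hy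
        rw [hN, eval_npl, hR, map_mul, eval_C, abs_mul,
          abs_of_pos (show (0 : ℝ) < 2 ^ g l by positivity), map_sub, map_add, eval_C]
        have h2 := hκ _ (by
          rw [← hP]
          exact npl_box (w := w) (T := F.t ω) hcl hPd hy)
        rw [← hP] at h2
        refine (mul_le_mul_of_nonneg_left h2 (by positivity)).trans (le_of_eq ?_)
        field_simp
      -- the samples
      obtain ⟨y₁, hy₁⟩ : ∃ y₁, y₁ = hv F c g P l ω := ⟨_, rfl⟩
      obtain ⟨y₂, hy₂⟩ : ∃ y₂, y₂ = hv F c g P' l ω' := ⟨_, rfl⟩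
      obtain ⟨v₁, hv₁⟩ : ∃ v₁, v₁ = vv F c g w P l ω := ⟨_, rfl⟩
      obtain ⟨v₂, hv₂⟩ : ∃ v₂, v₂ = vv F c g w P' l ω' := ⟨_, rfl⟩
      have hcube : ∀ ω₀, B ω₀ → ∀ o, |hv F c g (G₁ (ptr F J ω₀)) l ω₀ o| ≤ 1 := by
        intro ω₀ hω₀ o
        cases o with
        | none =>
          show |(0 : ℝ)| ≤ 1
          rw [abs_zero]
          exact zero_le_one
        | some i =>
          show |2 ^ g i * (F.x ω₀ (c i) - eval (bt F ω₀) (G₁ (ptr F J ω₀) i))| ≤ 1
          rw [abs_mul, abs_of_pos (show (0 : ℝ) < 2 ^ g i by positivity)]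
          have h2 := W.pos ω₀ hω₀ i (by have := i.2; omega)
          refine (mul_le_mul_of_nonneg_left h2 (by positivity)).trans (le_of_eq ?_)
          field_simp
      have hyb₁ : ∀ o, |y₁ o| ≤ 1 := fun o => by rw [hy₁, hP]; exact hcube ω hω o
      have hyb₂ : ∀ o, |y₂ o| ≤ 1 := fun o => by rw [hy₂, hP']; exact hcube ω' hω' o
      have hvb : ∀ o, |v₁ o| ≤ A * 2 ^ x := by
        intro o
        rw [hv₁]
        cases o with
        | none =>
          show |(1 : ℝ)| ≤ _
          rw [abs_one]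
          exact one_le_mul_of_one_le_of_one_le hA1 hx1
        | some i =>
          show |vy F (c i) (g i) w (P i) ω| ≤ _
          rw [hP]
          exact (hvy W ω hω i (by have := i.2; omega)).trans
            (mul_le_mul_of_nonneg_right a1 (by positivity))
      have hyd : ∀ o, |y₁ o - y₂ o| ≤ Z ^ l * ε := by
        intro o
        rw [hy₁, hy₂]
        cases o with
        | none =>
          show |(0 : ℝ) - 0| ≤ _
          rw [sub_zero, abs_zero]
          positivity
        | some i =>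
          rw [hP, hP']
          exact (hIH i i.2).1
      have hvd : ∀ o, |v₁ o - v₂ o| ≤ Z ^ l * ε := by
        intro o
        rw [hv₁, hv₂]
        cases o with
        | none =>
          show |(1 : ℝ) - 1| ≤ _
          rw [sub_self, abs_zero]
          positivity
        | some i =>
          rw [hP, hP']
          exact (hIH i i.2).2
      have hgl : (2 : ℝ) ^ g l / 2 ^ s l ≤ 2 ^ x := by
        rw [div_le_iff₀ (by positivity), ← pow_add]
        exact pow_le_pow_right₀ (by norm_num) (by have := hgs l hlr; omega)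
      have hgl0 : (0 : ℝ) ≤ 2 ^ g l / 2 ^ s l := by positivity
      -- the polynomial is the same for both samples
      have hN' : npl c g P' l w (F.t ω') R = N := by
        rw [hN, ← ht]
        have hpo : ∀ k ≤ l, ∀ o, Pool.D2G30.hpo c g P' l k o = Pool.D2G30.hpo c g P l k o := by
          intro k
          induction k with
          | zero => intro _ o; rfl
          | succ k ihk =>
            intro hk' o
            have e1 : Pool.D2G30.hpo c g P' l k = Pool.D2G30.hpo c g P l k := funext (ihk (by omega))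
            show (if o = some (c k) then bind₁ (Pool.D2G30.hpo c g P' l k) (P' k) + _ else Pool.D2G30.hpo c g P' l k o) =
              (if o = some (c k) then bind₁ (Pool.D2G30.hpo c g P l k) (P k) + _ else Pool.D2G30.hpo c g P l k o)
            rw [e1, hPe k (by omega)]
        unfold npl pull
        rw [show Pool.D2G30.hpo c g P' l l = Pool.D2G30.hpo c g P l l from funext (hpo l le_rfl)]
      have hRω : eval (bt F ω) R = eval y₁ N := by
        rw [hN, hy₁]
        exact (npl_eval hcl hPd ω hRd).symm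
      have hRω' : eval (bt F ω') R = eval y₂ N := by
        rw [← hN', hy₂]
        exact (npl_eval hcl hPd' ω' hRd).symm
      have hDω : 1 / 2 ^ w * dd R (bt F ω) (bd F ω) = ∑ o, eval y₁ (pderiv o N) * v₁ o := by
        rw [hN, hy₁, hv₁]
        exact npl_dd hcl hPd W.wJ ω hRd
      have hDω' : 1 / 2 ^ w * dd R (bt F ω') (bd F ω') = ∑ o, eval y₂ (pderiv o N) * v₂ o := by
        rw [← hN', hy₂, hv₂]
        exact npl_dd hcl hPd' W.wJ ω' hRd
      -- the heights
      have hpos : ∀ ω₀, Gf (ptr F J ω₀) l = Gf (ptr F J ω) l → G₁ (ptr F J ω₀) l = P l →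
          hy F (c l) (g l) (G₁ (ptr F J ω₀) l) ω₀ =
          2 ^ g l / 2 ^ s l * hy F (c l) (s l) (Gf (ptr F J ω₀) l) ω₀ + eval (bt F ω₀) R -
            2 ^ g l * κ := by
        intro ω₀ e1 e2
        unfold hy
        rw [hR, e1, e2, map_mul, eval_C, map_sub, map_add, eval_C]
        field_simp
        ring
      have hvel : ∀ ω₀, Gf (ptr F J ω₀) l = Gf (ptr F J ω) l → G₁ (ptr F J ω₀) l = P l →
          vy F (c l) (g l) w (G₁ (ptr F J ω₀) l) ω₀ =
          2 ^ g l / 2 ^ s l * vy F (c l) (s l) w (Gf (ptr F J ω₀) l) ω₀ +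
            1 / 2 ^ w * dd R (bt F ω₀) (bd F ω₀) := by
        intro ω₀ e1 e2
        have e3 : dd R (bt F ω₀) (bd F ω₀) = 2 ^ g l * (dd (Gf (ptr F J ω) l) (bt F ω₀) (bd F ω₀) -
            dd (P l) (bt F ω₀) (bd F ω₀)) := by
          rw [hR]
          unfold dd
          rw [← Finset.sum_sub_distrib, Finset.mul_sum]
          refine Finset.sum_congr rfl fun o _ => ?_
          rw [pderiv_C_mul, map_mul, eval_C, map_sub, map_add, pderiv_C, map_sub, add_zero]
          ring
        unfold vy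
        rw [e3, e1, e2]
        field_simp
        ring
      have hZε : 0 ≤ Z ^ l * ε := by positivity
      have hεZ : ε ≤ Z ^ l * ε := le_mul_of_one_le_left hε (one_le_pow₀ hZ1)
      have hA0 : 0 ≤ A := by linarith
      have hlr' : (l : ℝ) + 1 ≤ r + 1 := by
        have : (l : ℝ) ≤ r := by exact_mod_cast hlr.le
        linarith
      constructor
      · rw [hpos ω rfl (by rw [hP]), hpos ω' (hGf l hlr).symm (by rw [hP]; exact (hG₁ l hlr).symm),
          hRω, hRω']
        have b1 := hlip l N (2 ^ x) hND hNb y₁ y₂ hyb₁ hyb₂ (Z ^ l * ε) hyd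
        have b2 := mul_le_mul_of_nonneg_left (hh l hlr) hgl0
        rw [← abs_of_nonneg hgl0, ← abs_mul, abs_of_nonneg hgl0] at b2
        have e1 : 2 ^ g l / 2 ^ s l * hy F (c l) (s l) (Gf (ptr F J ω) l) ω + eval y₁ N -
            2 ^ g l * κ - (2 ^ g l / 2 ^ s l * hy F (c l) (s l) (Gf (ptr F J ω') l) ω' +
            eval y₂ N - 2 ^ g l * κ) = 2 ^ g l / 2 ^ s l * (hy F (c l) (s l)
            (Gf (ptr F J ω) l) ω - hy F (c l) (s l) (Gf (ptr F J ω') l) ω') +
            (eval y₁ N - eval y₂ N) := by ring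
        rw [e1]
        refine (abs_add_le _ _).trans ((add_le_add b2 b1).trans ?_)
        have c1 : 2 ^ g l / 2 ^ s l * ε ≤ 2 ^ x * (Z ^ l * ε) :=
          mul_le_mul hgl hεZ hε (by positivity)
        have c2 : ((l : ℝ) + 1) * (Cl l * 2 ^ x * (Z ^ l * ε)) ≤
            (r + 1) * (A * 2 ^ x * (Z ^ l * ε)) := by
          refine mul_le_mul hlr' (mul_le_mul_of_nonneg_right
            (mul_le_mul_of_nonneg_right a3 (by positivity)) hZε) ?_ (by positivity)
          have := hCl l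
          positivity
        have c3 : 2 ^ x + (r + 1) * A * 2 ^ x ≤ Z := by
          refine le_trans ?_ hstep
          have : 0 ≤ ((r : ℝ) + 1) * (A * ((r + 2) * (A * A)) * 2 ^ (2 * x)) := by positivity
          linarith
        calc 2 ^ g l / 2 ^ s l * ε + ((l : ℝ) + 1) * (Cl l * 2 ^ x * (Z ^ l * ε)) ≤
            (2 ^ x + (r + 1) * A * 2 ^ x) * (Z ^ l * ε) := by linarith
          _ ≤ Z * (Z ^ l * ε) := mul_le_mul_of_nonneg_right c3 hZε
          _ = Z ^ (l + 1) * ε := by rw [pow_succ]; ring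
      · rw [hvel ω rfl (by rw [hP]), hvel ω' (hGf l hlr).symm (by rw [hP]; exact (hG₁ l hlr).symm),
          hDω, hDω']
        have b2 := mul_le_mul_of_nonneg_left (hv' l hlr) hgl0
        rw [← abs_of_nonneg hgl0, ← abs_mul, abs_of_nonneg hgl0] at b2
        have b1 : |∑ o, eval y₁ (pderiv o N) * v₁ o - ∑ o, eval y₂ (pderiv o N) * v₂ o| ≤
            (l + 1) * ((r + 1) * (A * (A * 2 ^ x) * (Z ^ l * ε)) * (A * 2 ^ x) +
              A * 2 ^ x * (Z ^ l * ε)) := by
          rw [← Finset.sum_sub_distrib]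
          refine (Finset.abs_sum_le_sum_abs _ _).trans ?_
          have h2 : ∀ o ∈ (univ : Finset (Option (Fin l))), |eval y₁ (pderiv o N) * v₁ o -
              eval y₂ (pderiv o N) * v₂ o| ≤ (r + 1) * (A * (A * 2 ^ x) * (Z ^ l * ε)) *
              (A * 2 ^ x) + A * 2 ^ x * (Z ^ l * ε) := by
            intro o _
            have d1 : ∀ y : Option (Fin l) → ℝ, (∀ o, |y o| ≤ 1) →
                |eval y (pderiv o N)| ≤ A * 2 ^ x := fun y hy =>
              (hpd l N (2 ^ x) hND hNb y hy o).trans (mul_le_mul_of_nonneg_right a2 (by positivity))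
            have d2 := hlip l (pderiv o N) (A * 2 ^ x) ((pd_deg N o).trans hND) d1 y₁ y₂ hyb₁
              hyb₂ (Z ^ l * ε) hyd
            have d3 : |eval y₁ (pderiv o N) - eval y₂ (pderiv o N)| ≤
                (r + 1) * (A * (A * 2 ^ x) * (Z ^ l * ε)) := by
              refine d2.trans (mul_le_mul hlr' (mul_le_mul_of_nonneg_right
                (mul_le_mul_of_nonneg_right a3 (by positivity)) hZε) ?_ (by positivity))
              have := hCl l
              positivity
            have e1 : eval y₁ (pderiv o N) * v₁ o - eval y₂ (pderiv o N) * v₂ o =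
                (eval y₁ (pderiv o N) - eval y₂ (pderiv o N)) * v₁ o +
                eval y₂ (pderiv o N) * (v₁ o - v₂ o) := by ring
            rw [e1]
            refine (abs_add_le _ _).trans (add_le_add ?_ ?_)
            · rw [abs_mul]
              exact mul_le_mul d3 (hvb o) (abs_nonneg _) (by positivity)
            · rw [abs_mul]
              exact mul_le_mul (d1 y₂ hyb₂) (hvd o) (abs_nonneg _) (by positivity)
          refine (Finset.sum_le_sum h2).trans (le_of_eq ?_)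
          rw [Finset.sum_const, Finset.card_univ, Fintype.card_option, Fintype.card_fin,
            nsmul_eq_mul]
          push_cast
          ring
        have e1 : 2 ^ g l / 2 ^ s l * vy F (c l) (s l) w (Gf (ptr F J ω) l) ω +
            ∑ o, eval y₁ (pderiv o N) * v₁ o - (2 ^ g l / 2 ^ s l * vy F (c l) (s l) w
            (Gf (ptr F J ω') l) ω' + ∑ o, eval y₂ (pderiv o N) * v₂ o) = 2 ^ g l / 2 ^ s l *
            (vy F (c l) (s l) w (Gf (ptr F J ω) l) ω - vy F (c l) (s l) w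
            (Gf (ptr F J ω') l) ω') + (∑ o, eval y₁ (pderiv o N) * v₁ o -
            ∑ o, eval y₂ (pderiv o N) * v₂ o) := by ring
        rw [e1]
        refine (abs_add_le _ _).trans ((add_le_add b2 b1).trans ?_)
        have c1 : 2 ^ g l / 2 ^ s l * ε ≤ 2 ^ x * (Z ^ l * ε) :=
          mul_le_mul hgl hεZ hε (by positivity)
        have hxx : (2 : ℝ) ^ (2 * x) = 2 ^ x * 2 ^ x := by rw [two_mul, pow_add]
        have c2 : ((l : ℝ) + 1) * ((r + 1) * (A * (A * 2 ^ x) * (Z ^ l * ε)) * (A * 2 ^ x) +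
              A * 2 ^ x * (Z ^ l * ε)) ≤ (r + 1) * ((r + 1) * (A * (A * 2 ^ x) * (Z ^ l * ε)) *
              (A * 2 ^ x) + A * 2 ^ x * (Z ^ l * ε)) :=
          mul_le_mul_of_nonneg_right hlr' (by positivity)
        have c3 : 2 ^ x + (r + 1) * ((r + 1) * (A * (A * 2 ^ x)) * (A * 2 ^ x) + A * 2 ^ x) ≤
            Z := by
          refine le_trans ?_ hstep
          rw [hxx]
          have h3 : ((r : ℝ) + 1) * ((r + 1) * (A * (A * 2 ^ x)) * (A * 2 ^ x)) ≤
              (r + 1) * (A * ((r + 2) * (A * A)) * (2 ^ x * 2 ^ x)) := by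
            refine mul_le_mul_of_nonneg_left ?_ (by positivity)
            have h4 : (0 : ℝ) ≤ A * (A * A) * (2 ^ x * 2 ^ x) := by positivity
            have e5 : ((r : ℝ) + 1) * (A * (A * 2 ^ x)) * (A * 2 ^ x) =
                (r + 1) * (A * (A * A) * (2 ^ x * 2 ^ x)) := by ring
            have e6 : A * (((r : ℝ) + 2) * (A * A)) * (2 ^ x * 2 ^ x) =
                (r + 2) * (A * (A * A) * (2 ^ x * 2 ^ x)) := by ring
            rw [e5, e6]
            linarith
          linarith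
        calc 2 ^ g l / 2 ^ s l * ε + ((l : ℝ) + 1) * ((r + 1) * (A * (A * 2 ^ x) *
              (Z ^ l * ε)) * (A * 2 ^ x) + A * 2 ^ x * (Z ^ l * ε)) ≤
            (2 ^ x + (r + 1) * ((r + 1) * (A * (A * 2 ^ x)) * (A * 2 ^ x) + A * 2 ^ x)) *
              (Z ^ l * ε) := by linarith
          _ ≤ Z * (Z ^ l * ε) := mul_le_mul_of_nonneg_right c3 hZε
          _ = Z ^ (l + 1) * ε := by rw [pow_succ]; ring
  intro l hl
  have h1 := key r le_rfl l hl
  have e1 : Z ^ r = 2 ^ ((n + 3) * r * (x + 1)) := by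
    rw [hZ, ← pow_mul]
    congr 1
    ring
  rw [← e1]
  exact h1

end Pool.VLF71
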